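import Pool.Agent.P8H24.NU.Gp
import Pool.Agent.W726.NS.Blocks

/-!
# Systems generated by elements with polynomial orbits and elements with sparse orbits

An element has a sparse orbit if the averages of its orbit with arbitrary bounded weights tend to zero
in norm.
-/

set_option autoImplicit false
set_option linter.unusedSectionVars false

open Finset Filter Topology

namespace Pool.Agent.P8H72.RH

open Pool.Agent.Helper188.NCM (mob ee norm_ee norm_mob_le iter_smul norm_iter_le exists_ee)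
open Pool.Agent.TH261.AB (vav vav_norm vav_le vav_of_residues IsPF Good term_le eig_iter
  iter_norm tendsto_vav_iff)
open Pool.Agent.TH261.NP (Eig vav_approx vav_add' vav_mul' top_of_multi)
open Pool.Agent.P8H24.NU (OrbF IsNQ Multi fun_bdd prod_bdd)
open Pool.Agent.W726.NS (shift_sum)

variable {U : Type} [CStarAlgebra U]

/-- the averages of the orbit with arbitrary bounded weights tend to zero in norm -/
def SpF (α : U →⋆ₐ[ℂ] U) (x : U) : Prop :=
  ∀ b : ℕ → ℂ, (∀ n, ‖b n‖ ≤ 1) → ∀ ε : ℝ, 0 < ε → ∃ N₀ : ℕ, ∀ N ≥ N₀,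
    ‖∑ n ∈ range N, b n • (α^[n]) x‖ ≤ ε * N

/-- blocks of `M` terms all of whose combinations have norm at most `4 √M` -/
theorem sp_of_blocks (α : U →⋆ₐ[ℂ] U) (x : U) (hx : ‖x‖ ≤ 1)
    (h : ∀ M : ℕ, ∃ n : Fin M → ℕ, ∀ c : Fin M → ℂ, (∀ k, ‖c k‖ ≤ 1) →
      ‖∑ k, c k • (α^[n k]) x‖ ≤ 4 * Real.sqrt M) : SpF α x := by
  intro b hb ε hε
  obtain ⟨M, hM⟩ := exists_nat_ge ((8 / ε) ^ 2 + 1)
  have hMpos : (0 : ℝ) < M := lt_of_lt_of_le (by positivity) hM
  have hsq : 8 / ε ≤ Real.sqrt M := by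
    apply Real.le_sqrt_of_sq_le
    linarith
  obtain ⟨n, hn⟩ := h M
  obtain ⟨B, hB⟩ : ∃ B : ℕ, ∀ k, n k ≤ B :=
    ⟨Finset.univ.sup n, fun k => Finset.le_sup (f := n) (mem_univ k)⟩
  obtain ⟨N₀, hN₀⟩ := exists_nat_ge (4 * B / ε)
  refine ⟨N₀, fun N hN => ?_⟩
  set a : ℕ → U := fun m => b m • (α^[m]) x with ha
  have ha1 : ∀ m, ‖a m‖ ≤ 1 := by
    intro m
    rw [ha]
    simp only [norm_smul]
    calc ‖b m‖ * ‖(α^[m]) x‖ ≤ 1 * 1 := by
          gcongr
          · exact hb m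
          · exact (norm_iter_le α m x).trans hx
      _ = 1 := one_mul 1
  have hiter : ∀ (m : ℕ) (c : Fin M → ℂ), ∑ k, c k • (α^[m]) ((α^[n k]) x) =
      (α^[m]) (∑ k, c k • (α^[n k]) x) := by
    intro m c
    induction m with
    | zero => simp
    | succ m ih =>
      simp only [Function.iterate_succ_apply'] at ih ⊢
      rw [← ih, map_sum]
      exact sum_congr rfl fun k _ => by rw [map_smul]
  have hblock : ∀ m : ℕ, ‖∑ k, a (m + n k)‖ ≤ 4 * Real.sqrt M := by
    intro m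
    have e : ∑ k, a (m + n k) = (α^[m]) (∑ k, b (m + n k) • (α^[n k]) x) := by
      rw [← hiter]
      refine sum_congr rfl fun k _ => ?_
      rw [ha]
      simp only
      rw [Function.iterate_add_apply]
    rw [e]
    exact (norm_iter_le α m _).trans (hn _ fun k => hb _)
  set S : U := ∑ m ∈ range N, a m with hS
  have h1 : (M : ℂ) • S = ∑ k : Fin M, (∑ m ∈ range N, a m - ∑ m ∈ range N, a (m + n k)) +
      ∑ m ∈ range N, ∑ k, a (m + n k) := by
    rw [sum_sub_distrib, sum_comm (s := range N)]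
    simp only [sub_add_cancel, sum_const, card_univ, Fintype.card_fin]
    rw [hS, ← Nat.cast_smul_eq_nsmul ℂ]
  have h2 : (M : ℝ) * ‖S‖ ≤ M * (2 * B) + N * (4 * Real.sqrt M) := by
    have e : (M : ℝ) * ‖S‖ = ‖(M : ℂ) • S‖ := by rw [norm_smul]; simp
    rw [e, h1]
    refine (norm_add_le _ _).trans (add_le_add ?_ ?_)
    · refine (norm_sum_le _ _).trans ?_
      refine (sum_le_sum (g := fun _ => (2 * B : ℝ)) fun k _ => ?_).trans ?_
      · refine (shift_sum a ha1 N (n k)).trans ?_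
        have : (n k : ℝ) ≤ B := by exact_mod_cast hB k
        linarith
      · simp
    · refine (norm_sum_le _ _).trans ?_
      refine (sum_le_sum (g := fun _ => (4 * Real.sqrt M : ℝ)) fun m _ => hblock m).trans ?_
      simp
  have h3 : ‖S‖ * Real.sqrt M ≤ 2 * B * Real.sqrt M + 4 * N := by
    have hs : 0 < Real.sqrt M := Real.sqrt_pos.mpr hMpos
    have hs2 : Real.sqrt M * Real.sqrt M = M := Real.mul_self_sqrt hMpos.le
    have h4 : Real.sqrt M * (‖S‖ * Real.sqrt M) ≤
        Real.sqrt M * (2 * B * Real.sqrt M + 4 * N) := by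
      calc Real.sqrt M * (‖S‖ * Real.sqrt M) = (Real.sqrt M * Real.sqrt M) * ‖S‖ := by ring
        _ = M * ‖S‖ := by rw [hs2]
        _ ≤ M * (2 * B) + N * (4 * Real.sqrt M) := h2
        _ = (Real.sqrt M * Real.sqrt M) * (2 * B) + N * (4 * Real.sqrt M) := by rw [hs2]
        _ = Real.sqrt M * (2 * B * Real.sqrt M + 4 * N) := by ring
    exact le_of_mul_le_mul_left h4 hs
  have hs : 0 < Real.sqrt M := Real.sqrt_pos.mpr hMpos
  have h5 : 4 * (B : ℝ) ≤ ε * N := by
    have : 4 * B / ε ≤ (N : ℝ) := hN₀.trans (by exact_mod_cast hN)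
    rw [div_le_iff₀ hε] at this
    linarith
  have h6 : 8 ≤ ε * Real.sqrt M := by
    rw [div_le_iff₀ hε] at hsq
    linarith
  have h7 : ‖S‖ * Real.sqrt M ≤ (ε * N) * Real.sqrt M := by
    have h8 : (8 : ℝ) * N ≤ ε * Real.sqrt M * N := by gcongr
    have h9 : 4 * (B : ℝ) * Real.sqrt M ≤ ε * N * Real.sqrt M := by gcongr
    nlinarith
  exact le_of_mul_le_mul_right h7 hs

theorem SpF.of_smul {β : U →⋆ₐ[ℂ] U} {x : U} {c : ℂ} (hc : c ≠ 0) (h : SpF β (c • x)) :
    SpF β x := by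
  intro b hb ε hε
  have hc' : 0 < ‖c‖ := norm_pos_iff.2 hc
  obtain ⟨N0, hN0⟩ := h b hb (ε * ‖c‖) (by positivity)
  refine ⟨N0, fun N hN => ?_⟩
  have h1 := hN0 N hN
  have e : ∑ n ∈ range N, b n • (β^[n]) (c • x) = c • ∑ n ∈ range N, b n • (β^[n]) x := by
    rw [Finset.smul_sum]
    refine Finset.sum_congr rfl fun n _ => ?_
    rw [iter_smul, smul_comm]
  rw [e, norm_smul] at h1
  have h2 : ‖c‖ * ‖∑ n ∈ range N, b n • (β^[n]) x‖ ≤ ‖c‖ * (ε * N) := by
    calc _ ≤ ε * ‖c‖ * N := h1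
      _ = _ := by ring
  exact le_of_mul_le_mul_left h2 hc'

/-- the averages of functions of the orbit with weights bounded by a constant -/
theorem SpF.tend {β : U →⋆ₐ[ℂ] U} {x : U} (h : SpF β x) {V : Type*} [NormedAddCommGroup V]
    [NormedSpace ℂ V] (T : U →L[ℂ] V) {b : ℕ → ℂ} {C : ℝ} (hC : 0 ≤ C) (hb : ∀ n, ‖b n‖ ≤ C) :
    Tendsto (vav fun n => b n • T ((β^[n]) x)) atTop (𝓝 0) := by
  rw [tendsto_vav_iff, Metric.tendsto_atTop]
  intro ε hε
  have hc : 0 < ‖T‖ + 1 := by positivity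
  have hC1 : 0 < C + 1 := by linarith
  set b' : ℕ → ℂ := fun n => ((C + 1 : ℝ) : ℂ)⁻¹ * b n with hb'
  have hb1 : ∀ n, ‖b' n‖ ≤ 1 := by
    intro n
    rw [hb', norm_mul, norm_inv, Complex.norm_real, Real.norm_eq_abs, abs_of_pos hC1,
      inv_mul_le_iff₀ hC1]
    have := hb n
    linarith
  obtain ⟨N0, hN0⟩ := h b' hb1 (ε / 2 / ((C + 1) * (‖T‖ + 1))) (by positivity)
  refine ⟨N0 + 1, fun N hN => ?_⟩
  have hNpos : (0 : ℝ) < N := by exact_mod_cast (by omega : 0 < N)
  have h1 := hN0 N (by omega)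
  have e : ∑ n ∈ range N, b n • T ((β^[n]) x) =
      ((C + 1 : ℝ) : ℂ) • T (∑ n ∈ range N, b' n • (β^[n]) x) := by
    rw [map_sum, Finset.smul_sum]
    refine Finset.sum_congr rfl fun n _ => ?_
    rw [map_smul, smul_smul, hb']
    congr 1
    have : ((C + 1 : ℝ) : ℂ) ≠ 0 := Complex.ofReal_ne_zero.2 hC1.ne'
    simp only
    rw [mul_inv_cancel_left₀ this]
  rw [dist_zero_right, e, Real.norm_eq_abs, abs_of_nonneg (by positivity), div_lt_iff₀ hNpos,
    norm_smul, Complex.norm_real, Real.norm_eq_abs, abs_of_pos hC1]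
  have h2 : ‖T (∑ n ∈ range N, b' n • (β^[n]) x)‖ ≤
      (‖T‖ + 1) * (ε / 2 / ((C + 1) * (‖T‖ + 1)) * N) := by
    refine (T.le_opNorm _).trans ?_
    gcongr
    linarith
  calc (C + 1) * ‖T (∑ n ∈ range N, b' n • (β^[n]) x)‖
      ≤ (C + 1) * ((‖T‖ + 1) * (ε / 2 / ((C + 1) * (‖T‖ + 1)) * N)) := by gcongr
    _ = ε / 2 * N := by field_simp
    _ < ε * N := by
        apply mul_lt_mul_of_pos_right _ hNpos
        linarith

theorem SpF.good {β : U →⋆ₐ[ℂ] U} {x : U} (h : SpF β x) : Good β x := by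
  intro K _ _ _ π ξ
  let T0 : U →ₗ[ℂ] K :=
    { toFun := fun a => π a ξ
      map_add' := fun a b => by rw [map_add, add_apply]
      map_smul' := fun c a => by rw [map_smul, smul_apply]; rfl }
  have hT0 : ∀ a, ‖T0 a‖ ≤ ‖ξ‖ * ‖a‖ := by
    intro a
    show ‖π a ξ‖ ≤ ‖ξ‖ * ‖a‖
    rw [mul_comm]
    refine (ContinuousLinearMap.le_opNorm _ _).trans ?_
    gcongr
    exact NonUnitalStarAlgHom.norm_apply_le π _
  exact h.tend (T0.mkContinuous ‖ξ‖ hT0) zero_le_one (fun n => norm_mob_le n)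

theorem eig_iter' {β : U →⋆ₐ[ℂ] U} {w : U} {l : ℂ} (hw : β w = l • w) (n : ℕ) :
    (β^[n]) w = l ^ n • w := by
  induction n with
  | zero => simp
  | succ n ih =>
    rw [Function.iterate_succ_apply, hw, iter_smul, ih, smul_smul, pow_succ, mul_comm]

/-- products with eigenvectors, in an extension -/
theorem SpF.ext {x : U} {α : U →⋆ₐ[ℂ] U} (h : SpF α x) {B : Type} [CStarAlgebra B]
    {β : B →⋆ₐ[ℂ] B} (ι : U →⋆ₐ[ℂ] B) (hι : ∀ a, β (ι a) = ι (α a)) {v w : B} (hv : Eig β v)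
    (hw : Eig β w) : SpF β (v * ι x * w) := by
  obtain ⟨l, hl, hlv⟩ := hv
  obtain ⟨l', hl', hlw⟩ := hw
  intro b hb ε hε
  set C : ℝ := ‖v‖ * ‖w‖ + 1 with hC
  have hCpos : 0 < C := by positivity
  have hiter : ∀ n : ℕ, (β^[n]) (ι x) = ι ((α^[n]) x) := by
    intro n
    induction n with
    | zero => rfl
    | succ n ih => rw [Function.iterate_succ_apply', ih, hι, Function.iterate_succ_apply']
  have hbd : ∀ y : U, ‖v * ι y * w‖ ≤ C * ‖y‖ := by
    intro y
    have h1 : ‖v * ι y * w‖ ≤ ‖v‖ * ‖y‖ * ‖w‖ := by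
      refine (norm_mul_le _ _).trans ?_
      gcongr
      refine (norm_mul_le _ _).trans ?_
      gcongr
      exact NonUnitalStarAlgHom.norm_apply_le ι y
    refine h1.trans ?_
    rw [hC]
    nlinarith [norm_nonneg y, norm_nonneg v, norm_nonneg w]
  obtain ⟨N0, hN0⟩ := h (fun n => b n * (l ^ n * l' ^ n)) (fun n => by
    rw [norm_mul, norm_mul, norm_pow, norm_pow, hl, hl', one_pow, mul_one, mul_one]
    exact hb n) (ε / C) (by positivity)
  refine ⟨N0, fun N hN => ?_⟩
  have e : ∑ n ∈ range N, b n • (β^[n]) (v * ι x * w) =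
      v * ι (∑ n ∈ range N, (b n * (l ^ n * l' ^ n)) • (α^[n]) x) * w := by
    rw [map_sum, Finset.mul_sum, Finset.sum_mul]
    refine Finset.sum_congr rfl fun k _ => ?_
    rw [Pool.Agent.TH261.AB.iter_mul, Pool.Agent.TH261.AB.iter_mul, eig_iter' hlv, eig_iter' hlw,
      hiter, map_smul]
    simp only [smul_mul_assoc, mul_smul_comm, smul_smul]
    congr 1
    ring
  rw [e]
  calc _ ≤ C * ‖∑ n ∈ range N, (b n * (l ^ n * l' ^ n)) • (α^[n]) x‖ := hbd _
    _ ≤ C * (ε / C * N) := by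
        gcongr
        exact hN0 N hN
    _ = ε * N := by field_simp

/-- polynomial or sparse -/
def Mx (γ : U →⋆ₐ[ℂ] U) (x : U) : Prop := OrbF γ x ∨ SpF γ x

theorem Mx.good {γ : U →⋆ₐ[ℂ] U} {x : U} (h : Mx γ x) : Good γ x := h.elim OrbF.good SpF.good

theorem Mx.ext {x : U} {α : U →⋆ₐ[ℂ] U} (h : Mx α x) {B : Type} [CStarAlgebra B]
    {β : B →⋆ₐ[ℂ] B} {ι : U →⋆ₐ[ℂ] B} (hι : ∀ a, β (ι a) = ι (α a)) {v w : B} (hv : Eig β v)
    (hw : Eig β w) : Mx β (v * ι x * w) :=
  h.elim (fun h => Or.inl ((h.map hι).mul hv hw)) (fun h => Or.inr (h.ext ι hι hv hw))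

theorem multi_mx {γ : U →⋆ₐ[ℂ] U} {S : Set U} (hS : ∀ x ∈ S, Mx γ x)
    (hd : (Submodule.span ℂ S).topologicalClosure = ⊤) (L : List ((U →L[ℂ] ℂ) × U)) :
    ∀ F : ℕ → ℂ, IsNQ F → Tendsto (vav fun n =>
      mob n * (F n * (L.map fun p => p.1 ((γ^[n]) p.2)).prod)) atTop (𝓝 0) := by
  induction L with
  | nil =>
    intro F hF
    refine hF.mob.congr fun N => ?_
    simp
  | cons p L ih =>
    intro F hF
    obtain ⟨ρ, a0⟩ := p
    obtain ⟨C, hC0, hC⟩ := prod_bdd γ L
    obtain ⟨C2, hC20, hC2⟩ := hF.bdd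
    set E : ℕ → ℂ := fun n => mob n * (F n * (L.map fun p => p.1 ((γ^[n]) p.2)).prod) with hE
    have hEb : ∀ n, ‖E n‖ ≤ C2 * C := by
      intro n
      rw [hE]
      simp only
      rw [norm_mul, norm_mul]
      have h1 := hC n
      have h2 := hC2 n
      calc _ ≤ 1 * (C2 * C) := by
            gcongr
            exact norm_mob_le _
        _ = _ := one_mul _
    have h1 : ∀ a ∈ S, Tendsto (vav fun n => E n * ρ ((γ^[n]) a)) atTop (𝓝 0) := by
      intro a ha
      rcases hS a ha with hor | hsp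
      · refine (ih _ (hF.mul (hor.coef ρ))).congr fun N => ?_
        rw [vav, vav]
        congr 1
        refine Finset.sum_congr rfl fun n _ => ?_
        rw [hE]
        simp only
        ring
      · exact hsp.tend ρ (by positivity) hEb
    have h2 : ∀ a ∈ Submodule.span ℂ S, Tendsto (vav fun n => E n * ρ ((γ^[n]) a)) atTop (𝓝 0) := by
      intro a ha
      induction ha using Submodule.span_induction with
      | mem x hx => exact h1 x hx
      | zero =>
        have h0 : ∀ n, (γ^[n]) (0 : U) = 0 := fun n => by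
          have := iter_smul γ n 0 0
          rwa [zero_smul, zero_smul] at this
        have : (vav fun n => E n * ρ ((γ^[n]) (0 : U))) = fun _ => 0 := by
          funext N
          simp [vav, h0]
        rw [this]
        exact tendsto_const_nhds
      | add x y _ _ hx hy =>
        refine (vav_add' hx hy).congr fun N => ?_
        rw [vav, vav]
        congr 1
        exact Finset.sum_congr rfl fun n _ => by
          rw [Pool.Agent.TH261.AB.iter_add, map_add, mul_add]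
      | smul c x _ hx =>
        refine (vav_mul' c hx).congr fun N => ?_
        rw [vav, vav]
        congr 1
        exact Finset.sum_congr rfl fun n _ => by rw [iter_smul, map_smul, smul_eq_mul]; ring
    have h3 : a0 ∈ closure (Submodule.span ℂ S : Set U) := by
      have : a0 ∈ (Submodule.span ℂ S).topologicalClosure := by rw [hd]; trivial
      exact this
    have h4 : Tendsto (vav fun n => E n * ρ ((γ^[n]) a0)) atTop (𝓝 0) := by
      refine vav_approx fun ε hε => ?_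
      obtain ⟨b, hb, hab⟩ := Metric.mem_closure_iff.1 h3 (ε / (C2 * C * ‖ρ‖ + 1)) (by positivity)
      refine ⟨_, fun n => ?_, h2 b hb⟩
      rw [← mul_sub, ← map_sub, ← Pool.Agent.TH261.AB.iter_sub, norm_mul]
      have h2 := hEb n
      have h3 := fun_bdd γ ρ (a0 - b) n
      rw [dist_eq_norm] at hab
      calc _ ≤ (C2 * C) * (‖ρ‖ * ‖a0 - b‖) := by gcongr
        _ ≤ (C2 * C) * (‖ρ‖ * (ε / (C2 * C * ‖ρ‖ + 1))) := by gcongr
        _ = (C2 * C * ‖ρ‖) / (C2 * C * ‖ρ‖ + 1) * ε := by ring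
        _ ≤ 1 * ε := by
            gcongr
            rw [div_le_one (by positivity)]
            linarith
        _ = ε := one_mul _
    refine h4.congr fun N => ?_
    rw [vav, vav]
    congr 1
    refine Finset.sum_congr rfl fun n _ => ?_
    rw [hE, List.map_cons, List.prod_cons]
    simp only
    ring

theorem both_mx {γ : U →⋆ₐ[ℂ] U} {S : Set U} (hS : ∀ x ∈ S, Mx γ x)
    (hd : (Submodule.span ℂ S).topologicalClosure = ⊤) : (∀ x, Good γ x) ∧ Multi γ := by
  refine ⟨fun x => Good.of_span (fun y hy => (hS y hy).good) x (by rw [hd]; trivial), fun L => ?_⟩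
  refine (multi_mx hS hd L (fun _ => 1) (IsNQ.const 1)).congr fun N => ?_
  simp

/-- systems generated by an equivariant image and eigenvectors -/
theorem both_ext_mx {γ : U →⋆ₐ[ℂ] U} {S : Set U} (hS : ∀ x ∈ S, Mx γ x)
    (hd : (Submodule.span ℂ S).topologicalClosure = ⊤) {B : Type} [CStarAlgebra B]
    {β : B →⋆ₐ[ℂ] B} {ι : U →⋆ₐ[ℂ] B} (hι : ∀ a, β (ι a) = ι (γ a))
    (hgen : (Submodule.span ℂ {x : B | ∃ y ∈ Set.range ι, ∃ v w, Eig β v ∧ Eig β w ∧
      x = v * y * w}).topologicalClosure = ⊤) : (∀ x, Good β x) ∧ Multi β := by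
  set S' : Set B := {x | ∃ y ∈ S, ∃ v w, Eig β v ∧ Eig β w ∧ x = v * ι y * w} with hS'
  have h1 : ∀ x ∈ S', Mx β x := by
    rintro x ⟨y, hy, v, w, hv, hw, rfl⟩
    exact (hS y hy).ext hι hv hw
  refine both_mx h1 ?_
  rw [← top_le_iff, ← hgen]
  refine Submodule.topologicalClosure_minimal _ ?_ (Submodule.isClosed_topologicalClosure _)
  rw [Submodule.span_le]
  rintro x ⟨_, ⟨a, rfl⟩, v, w, hv, hw, rfl⟩
  have hcont : Continuous fun a : U => v * ι a * w :=
    (continuous_const.mul (AddMonoidHomClass.continuous_of_bound ι 1 fun x => by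
      rw [one_mul]; exact NonUnitalStarAlgHom.norm_apply_le ι x)).mul continuous_const
  have h2 : a ∈ closure (Submodule.span ℂ S : Set U) := by
    have : a ∈ (Submodule.span ℂ S).topologicalClosure := by rw [hd]; trivial
    exact this
  have h3 := image_closure_subset_closure_image hcont ⟨a, h2, rfl⟩
  refine closure_mono ?_ h3
  rintro _ ⟨c, hc, rfl⟩
  show v * ι c * w ∈ Submodule.span ℂ S'
  induction hc using Submodule.span_induction with
  | mem x hx => exact Submodule.subset_span ⟨x, hx, v, w, hv, hw, rfl⟩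
  | zero => rw [map_zero, mul_zero, zero_mul]; exact zero_mem _
  | add x y _ _ hx hy => rw [map_add, mul_add, add_mul]; exact add_mem hx hy
  | smul c x _ hx =>
    rw [map_smul, mul_smul_comm, smul_mul_assoc]; exact Submodule.smul_mem _ _ hx

end Pool.Agent.P8H72.RH
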