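import Mathlib

/-!
# Mapping tori of automorphisms

If the group generated by `E` and `t^m` in `G ⋊ ⟨t⟩`, where `t` acts by `σ`, is virtually nilpotent and
`g⁻¹ σ^m(g) ∈ E`, then for a multiple `q` of `m` there is a nilpotent `σ^q`-invariant subgroup which
contains `g⁻¹ σ^q(g)` and on which `σ^q` acts unipotently.
-/

set_option autoImplicit false

open scoped commutatorElement

namespace Pool.Agent.P8H72.RH

variable {G : Type*} [Group G]

/-- the mapping torus `G ⋊ ℤ` of the automorphism `σ` -/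
abbrev MT (σ : MulAut G) : Type _ := G ⋊[zpowersHom (MulAut G) σ] Multiplicative ℤ

/-- the stable letter -/
def tt (σ : MulAut G) : MT σ := SemidirectProduct.inr (Multiplicative.ofAdd 1)

/-- the subgroup generated by `E` and `t^m` -/
def torus (σ : MulAut G) (E : Subgroup G) (m : ℕ) : Subgroup (MT σ) :=
  Subgroup.closure ({x | ∃ e ∈ E, x = SemidirectProduct.inl e} ∪ {tt σ ^ m})

theorem tt_conj (σ : MulAut G) (g : G) :
    tt σ * SemidirectProduct.inl g * (tt σ)⁻¹ = SemidirectProduct.inl (σ g) := by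
  have h := SemidirectProduct.inl_aut (φ := zpowersHom (MulAut G) σ) (Multiplicative.ofAdd 1) g
  rw [map_inv] at h
  have e : (zpowersHom (MulAut G) σ) (Multiplicative.ofAdd 1) = σ := by
    rw [zpowersHom_apply]; simp
  rw [e] at h
  exact h.symm

theorem tt_conj_pow (σ : MulAut G) (n : ℕ) (g : G) :
    tt σ ^ n * SemidirectProduct.inl g * (tt σ ^ n)⁻¹ = SemidirectProduct.inl ((σ ^ n) g) := by
  induction n with
  | zero => simp
  | succ n ih =>
    rw [pow_succ' σ, MulAut.mul_apply, ← tt_conj, ← ih, pow_succ']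
    group

open Subgroup in
theorem nilp_data (σ : MulAut G) (E : Subgroup G) (m : ℕ) (hm : 0 < m)
    (hE : Group.IsVirtuallyNilpotent (torus σ E m)) (g : G) (hg : g⁻¹ * (σ ^ m) g ∈ E) :
    ∃ (q : ℕ) (V : Subgroup G), 0 < q ∧ Group.IsNilpotent V ∧ (∀ x ∈ V, (σ ^ q) x ∈ V) ∧
      g⁻¹ * (σ ^ q) g ∈ V ∧
      ∃ k : ℕ, ((fun x : G => x⁻¹ * (σ ^ q) x)^[k]) (g⁻¹ * (σ ^ q) g) = 1 := by
  obtain ⟨N0, hN0, hN0i⟩ := hE
  set N : Subgroup (MT σ) := N0.map (torus σ E m).subtype with hN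
  have hNn : Group.IsNilpotent N :=
    Group.nilpotent_of_surjective (N0.equivMapOfInjective _ (Subgroup.subtype_injective _)).toMonoidHom
      (MulEquiv.surjective _)
  have hpow : ∀ x ∈ torus σ E m, ∃ n : ℕ, 0 < n ∧ x ^ n ∈ N := by
    intro x hx
    obtain ⟨n, hn, -, h1⟩ := Subgroup.exists_pow_mem_of_index_ne_zero hN0i.index_ne_zero
      (⟨x, hx⟩ : torus σ E m)
    exact ⟨n, hn, ⟨_, h1, rfl⟩⟩
  have ht : tt σ ^ m ∈ torus σ E m := Subgroup.subset_closure (Or.inr rfl)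
  set i : G →* MT σ := SemidirectProduct.inl with hi
  have hs : (i g)⁻¹ * tt σ ^ m * i g ∈ torus σ E m := by
    have h1 : (i g)⁻¹ * tt σ ^ m * i g = i (g⁻¹ * (σ ^ m) g) * tt σ ^ m := by
      rw [map_mul, map_inv, hi, ← tt_conj_pow]
      group
    rw [h1]
    exact (torus σ E m).mul_mem (Subgroup.subset_closure (Or.inl ⟨_, hg, rfl⟩)) ht
  obtain ⟨a, ha, hta⟩ := hpow _ ht
  obtain ⟨b, hb, hsb⟩ := hpow _ hs
  have hq : 0 < m * (a * b) := Nat.mul_pos hm (Nat.mul_pos ha hb)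
  have htq : tt σ ^ (m * (a * b)) ∈ N := by
    rw [pow_mul, pow_mul]; exact N.pow_mem hta b
  have hsq : (i g)⁻¹ * tt σ ^ (m * (a * b)) * i g ∈ N := by
    have h1 : (i g)⁻¹ * tt σ ^ (m * (a * b)) * i g =
        (((i g)⁻¹ * tt σ ^ m * i g) ^ b) ^ a := by
      have h2 : ∀ (x y : MT σ) (n : ℕ), (x⁻¹ * y * x) ^ n = x⁻¹ * y ^ n * x := by
        intro x y n
        have := conj_pow (i := n) (a := x⁻¹) (b := y)
        rwa [inv_inv] at this
      rw [h2, h2, ← pow_mul, ← pow_mul, mul_comm a b, ← mul_assoc]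
    rw [h1]
    exact N.pow_mem hsb a
  generalize m * (a * b) = q at hq htq hsq
  set V : Subgroup G := N.comap i with hV
  have hinj : Function.Injective i := SemidirectProduct.inl_injective
  have hVn : Group.IsNilpotent V := by
    let f : V →* N := (i.comp V.subtype).codRestrict N (fun x => x.2)
    refine Subgroup.isNilpotent_of_ker_le_center f ?_
    intro x hx
    have h1 : f x = 1 := hx
    have h2 : i (x : G) = 1 := congrArg Subtype.val h1
    have h3 : (x : G) = 1 := hinj (by rw [h2, map_one])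
    have h4 : x = 1 := Subtype.ext h3
    rw [h4]
    exact Subgroup.one_mem _
  have hVs : ∀ x ∈ V, (σ ^ q) x ∈ V := by
    intro x hx
    show i ((σ ^ q) x) ∈ N
    rw [hi, ← tt_conj_pow]
    exact N.mul_mem (N.mul_mem htq hx) (N.inv_mem htq)
  have hgV : g⁻¹ * (σ ^ q) g ∈ V := by
    show i (g⁻¹ * (σ ^ q) g) ∈ N
    have h1 : i (g⁻¹ * (σ ^ q) g) = (i g)⁻¹ * tt σ ^ q * i g * (tt σ ^ q)⁻¹ := by
      rw [map_mul, map_inv, hi, ← tt_conj_pow]
      group
    rw [h1]
    exact N.mul_mem hsq (N.inv_mem htq)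
  refine ⟨q, V, hq, hVn, hVs, hgV, ?_⟩
  obtain ⟨c, hc⟩ := (Subgroup.isNilpotent_iff_lowerCentralSeries N).1 hNn
  refine ⟨c, ?_⟩
  have key : ∀ k : ℕ, i (((fun x : G => x⁻¹ * (σ ^ q) x)^[k]) (g⁻¹ * (σ ^ q) g)) ∈
      N.lowerCentralSeries k := by
    intro k
    induction k with
    | zero => exact hgV
    | succ k ih =>
      rw [Function.iterate_succ_apply']
      set y := ((fun x : G => x⁻¹ * (σ ^ q) x)^[k]) (g⁻¹ * (σ ^ q) g) with hy
      have h1 : i (y⁻¹ * (σ ^ q) y) = ⁅(i y)⁻¹, tt σ ^ q⁆ := by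
        rw [map_mul, map_inv, hi, ← tt_conj_pow, commutatorElement_def]
        group
      show i (y⁻¹ * (σ ^ q) y) ∈ _
      rw [h1, Subgroup.lowerCentralSeries_succ]
      exact Subgroup.commutator_mem_commutator (Subgroup.inv_mem _ ih) htq
  have h1 := key c
  rw [hc, Subgroup.mem_bot] at h1
  exact hinj (by rw [h1, map_one])

end Pool.Agent.P8H72.RH
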