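import Pool.Agent.P8H72.RH.Rel
import Pool.Agent.P8H72.RH.Torus
import Pool.Agent.P8H72.RH.Mix
import Pool.Agent.W726.NS.Abs

/-!
# Reduced C*-algebras of convergence groups with virtually nilpotent stabilisers: assembly
-/

set_option autoImplicit false
set_option linter.unusedSectionVars false

open Finset Filter Topology MulAction
open scoped Pointwise

namespace Pool.Agent.P8H72.RH

open Pool.Agent.Helper188.NCM (norm_unitary_le iter_smul)
open Pool.Agent.W726.NS (ConvergenceAction RedAlg sparse_norm)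
open Pool.Agent.P8H24.NU (Proj proj_orb NT dm itm itm_apply Ds)
open Pool.Agent.H379R3.CS

variable {A G : Type} [CStarAlgebra A] [Group G] [Countable G] {X : Type} [TopologicalSpace X]
  [CompactSpace X] [T2Space X] [MulAction G X]

/-- the condition on the automorphism -/
def QUn (X : Type) [MulAction G X] (σ : MulAut G) : Prop :=
  ∀ a : X, (stabilizer G a : Set G).Infinite → ∀ m : ℕ, 0 < m →
    (∀ x, (σ ^ m) x ∈ NN G a ↔ x ∈ NN G a) → Group.IsVirtuallyNilpotent (torus σ (NN G a) m)

theorem iter_aut (σ : MulAut G) (n : ℕ) (x : G) :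
    ((σ.toMonoidHom : G →* G)^[n]) x = (σ ^ n) x := by
  induction n with
  | zero => rfl
  | succ n ih =>
    rw [Function.iterate_succ_apply', ih, pow_succ', MulAut.mul_apply]
    rfl

/-- the nilpotent type -/
theorem nt_of (σ : MulAut G) (g : G) (V : Subgroup G) (hVn : Group.IsNilpotent V) (q : ℕ)
    (hq : 0 < q) (hV : ∀ x ∈ V, (σ ^ q) x ∈ V) (hg : g⁻¹ * (σ ^ q) g ∈ V)
    (hk : ∃ k : ℕ, ((fun x : G => x⁻¹ * (σ ^ q) x)^[k]) (g⁻¹ * (σ ^ q) g) = 1) :
    NT (σ.toMonoidHom : G →* G) g := by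
  have hdm : dm (itm (σ.toMonoidHom : G →* G) q) = fun x : G => x⁻¹ * (σ ^ q) x := by
    funext x
    rw [dm, itm_apply, iter_aut]
  obtain ⟨k, hk⟩ := hk
  refine ⟨q, hq, ⟨k + 1, ?_⟩, ?_⟩
  · rw [hdm, Function.iterate_succ_apply]
    exact hk
  · have hsub : Subgroup.closure (Ds (itm (σ.toMonoidHom : G →* G) q) g) ≤ V := by
      rw [Subgroup.closure_le]
      rintro x ⟨i, rfl⟩
      rw [hdm]
      induction i with
      | zero => exact hg
      | succ i ih =>
        rw [Function.iterate_succ_apply']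
        exact V.mul_mem (V.inv_mem ih) (hV _ ih)
    have h1 : Group.IsNilpotent (Subgroup.closure (Ds (itm (σ.toMonoidHom : G →* G) q) g)) := by
      refine Subgroup.isNilpotent_of_ker_le_center (Subgroup.inclusion hsub) ?_
      rw [(MonoidHom.ker_eq_bot_iff _).2 (Subgroup.inclusion_injective _)]
      exact bot_le
    exact ⟨⊤, Group.isNilpotent_top.2 h1, inferInstance⟩

theorem mx_gen {u : G → A} {τ : A →L[ℂ] ℂ} (hu : RedAlg u τ) (hG : ConvergenceAction G X)
    [Infinite X] (hst : ∀ p : X, VTFN (stabilizer G p)) (σ : MulAut G) (hσ : QUn X σ)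
    (α : A →⋆ₐ[ℂ] A) (hα : ∀ g, ∃ c : ℂ, ‖c‖ = 1 ∧ α (u g) = c • u (σ g)) (g : G) :
    Mx α (u g) := by
  classical
  have hit : ∀ (n : ℕ) (g : G), ∃ c : ℂ, ‖c‖ = 1 ∧ (α^[n]) (u g) = c • u ((σ ^ n) g) := by
    intro n
    induction n with
    | zero => intro g; exact ⟨1, by simp, by simp⟩
    | succ n ih =>
      intro g
      obtain ⟨c, hc, h1⟩ := hα g
      obtain ⟨c', hc', h2⟩ := ih (σ g)
      refine ⟨c * c', by rw [norm_mul, hc, hc', one_mul], ?_⟩
      rw [Function.iterate_succ_apply, h1, iter_smul, h2, smul_smul, pow_succ, MulAut.mul_apply]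
  have hP : Proj u (σ.toMonoidHom : G →* G) α := ⟨hu.unit, hu.mul, hα⟩
  -- the nilpotent case
  have hnil : ∀ (V : Subgroup G) (_ : Group.IsNilpotent V) (q : ℕ), 0 < q →
      (∀ x ∈ V, (σ ^ q) x ∈ V) → g⁻¹ * (σ ^ q) g ∈ V → (∃ k : ℕ,
        ((fun x : G => x⁻¹ * (σ ^ q) x)^[k]) (g⁻¹ * (σ ^ q) g) = 1) → Mx α (u g) :=
    fun V hVn q hq hV hg hk => Or.inl (proj_orb hP (nt_of σ g V hVn q hq hV hg hk))
  by_cases hinj : Function.Injective (fun n : ℕ => (σ ^ n) g)
  · rcases dich (fam_disj hG hst) (fam_countable hG hst) σ (fam_smul hG hst σ)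
      (fam_smul hG hst σ⁻¹) g hinj with ⟨S, hS, hSf⟩ | ⟨m, hm, E, hE, hEm, hgE⟩
    · refine Or.inr (sp_of_blocks α (u g) (norm_unitary_le (hu.unit g)) fun M => ?_)
      have hSi : Infinite S := hS.to_subtype
      let e : ℕ ↪o ℕ := Nat.orderEmbeddingOfSet S
      have heS : ∀ n, e n ∈ S := fun n => by
        have : e n ∈ Set.range (Nat.orderEmbeddingOfSet S) := ⟨n, rfl⟩
        rwa [Nat.orderEmbeddingOfSet_range] at this
      obtain ⟨o⟩ : Nonempty X := inferInstance
      have hxinj : Function.Injective (fun k => (σ ^ (e k)) g) :=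
        fun a b hab => e.injective (hinj hab)
      obtain ⟨n, -, hn⟩ := sparse_norm hG o (fun k => (σ ^ (e k)) g) hxinj (by
          intro p q
          by_cases hne : ∃ k0, ((σ ^ (e k0)) g) • p = q
          · obtain ⟨k0, hk0⟩ := hne
            have hcos : ∀ k, ((σ ^ (e k)) g) • p = q →
                ((σ ^ (e k0)) g)⁻¹ * (σ ^ (e k)) g ∈ stabilizer G p := by
              intro k hk
              rw [MulAction.mem_stabilizer_iff, mul_smul, hk, ← hk0, inv_smul_smul]
            by_cases hfin : (stabilizer G p : Set G).Finite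
            · have h1 : ((fun z => ((σ ^ (e k0)) g) * z) '' (stabilizer G p : Set G)).Finite :=
                hfin.image _
              refine (h1.preimage hxinj.injOn).subset ?_
              intro k hk
              exact ⟨_, hcos k hk, by group⟩
            · have h1 := hSf _ ⟨p, hfin, rfl⟩ ((σ ^ (e k0)) g)
              refine (h1.preimage (f := e) e.injective.injOn).subset ?_
              intro k hk
              exact ⟨heS k, stab_le_NN p (hcos k hk)⟩
          · convert Set.finite_empty (α := ℕ)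
            ext k
            simp only [Set.mem_ofPred_eq, Set.mem_empty_iff_false, iff_false]
            exact fun h => hne ⟨k, h⟩) M
      refine ⟨fun k => e (n k), fun c hc => ?_⟩
      choose c' hc' hc'' using fun k : Fin M => hit (e (n k)) g
      have h3 : ∀ k, ‖c k * c' k‖ ≤ 1 := fun k => by
        rw [norm_mul, hc' k, mul_one]; exact hc k
      have h2 := hn (fun k => ((‖c k * c' k‖ : ℝ) : ℂ)) (fun k => by
        rw [Complex.norm_real, norm_norm]; exact h3 k)
      have h4 := hu.norm_sum_le (fun k => (σ ^ (e (n k))) g) (fun k => c k * c' k)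
        (by positivity) h2
      refine le_trans (le_of_eq ?_) h4
      congr 1
      refine Finset.sum_congr rfl fun k _ => ?_
      rw [hc'' k, smul_smul]
    · obtain ⟨a, ha, rfl⟩ := hE
      have hinv : ∀ x, (σ ^ m) x ∈ NN G a ↔ x ∈ NN G a := by
        intro x
        have h1 : (σ ^ m) x ∈ (σ ^ m) • NN G a ↔ x ∈ NN G a :=
          Subgroup.smul_mem_pointwise_smul_iff (a := σ ^ m)
        rwa [hEm] at h1
      obtain ⟨q, V, hq, hVn, hV, hgV, hk⟩ := nilp_data σ (NN G a) m hm (hσ a ha m hm hinv) g hgE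
      exact hnil V hVn q hq hV hgV hk
  · obtain ⟨i, j, hij, hne⟩ : ∃ i j : ℕ, (σ ^ i) g = (σ ^ j) g ∧ i ≠ j := by
      simpa [Function.Injective] using hinj
    wlog hlt : i < j generalizing i j
    · exact this j i hij.symm hne.symm (by omega)
    obtain ⟨m, rfl⟩ : ∃ m, j = i + m := ⟨j - i, by omega⟩
    have h1 : (σ ^ m) g = g := by
      rw [pow_add, MulAut.mul_apply] at hij
      exact ((σ ^ i).injective hij).symm
    have h2 : g⁻¹ * (σ ^ m) g = 1 := by rw [h1, inv_mul_cancel]
    refine hnil ⊥ inferInstance m (by omega) (fun x hx => ?_) ?_ ⟨0, h2⟩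
    · rw [Subgroup.mem_bot] at hx ⊢
      rw [hx, map_one]
    · rw [h2]; exact Subgroup.one_mem _

end Pool.Agent.P8H72.RH
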