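import Mathlib

/-!
# Orbits of an automorphism and cosets of an invariant family of subgroups

`F` is a countable family of subgroups of a group with pairwise finite intersections, permuted by the
automorphism `σ`.  Either the orbit of `g` has an infinite part which meets each coset of each member
of `F` in a finite set, or `g⁻¹ σᵐ(g)` lies in a member of `F` fixed by `σᵐ`, for some `m > 0`.
-/

set_option autoImplicit false
set_option linter.unusedSectionVars false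

namespace Pool.Agent.P8H72.RH

open Set
open scoped Pointwise

variable {G : Type*} [Group G]

/-- the indices for which the sequence lies in the coset `y E` -/
def Ln (x : ℕ → G) (y : G) (E : Subgroup G) : Set ℕ := {n | y⁻¹ * x n ∈ E}

/-- distinct members meet in a finite set -/
def AlmostDisj (F : Set (Subgroup G)) : Prop :=
  ∀ E ∈ F, ∀ E' ∈ F, ((E : Set G) ∩ E').Infinite → E = E'

lemma ln_eq {F : Set (Subgroup G)} (hF : AlmostDisj F) {x : ℕ → G} (hx : Function.Injective x)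
    {y y' : G} {E E' : Subgroup G} (hE : E ∈ F) (hE' : E' ∈ F)
    (hinf : (Ln x y E ∩ Ln x y' E').Infinite) : E = E' ∧ y⁻¹ * y' ∈ E := by
  obtain ⟨n0, hn0, hn0'⟩ := hinf.nonempty
  have hn1 : y⁻¹ * x n0 ∈ E := hn0
  have hn2 : y'⁻¹ * x n0 ∈ E' := hn0'
  have e1 : E = E' := by
    refine hF E hE E' hE' ?_
    have hinj : Set.InjOn (fun n => (x n0)⁻¹ * x n) (Ln x y E ∩ Ln x y' E') :=
      fun a _ b _ hab => hx (mul_left_cancel hab)
    refine (hinf.image hinj).mono ?_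
    rintro _ ⟨n, ⟨h1, h2⟩, rfl⟩
    have h3 : y⁻¹ * x n ∈ E := h1
    have h4 : y'⁻¹ * x n ∈ E' := h2
    refine ⟨?_, ?_⟩
    · have := E.mul_mem (E.inv_mem hn1) h3
      have e : (x n0)⁻¹ * x n = (y⁻¹ * x n0)⁻¹ * (y⁻¹ * x n) := by group
      show (x n0)⁻¹ * x n ∈ E
      rw [e]; exact this
    · have := E'.mul_mem (E'.inv_mem hn2) h4
      have e : (x n0)⁻¹ * x n = (y'⁻¹ * x n0)⁻¹ * (y'⁻¹ * x n) := by group
      show (x n0)⁻¹ * x n ∈ E'
      rw [e]; exact this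
  refine ⟨e1, ?_⟩
  rw [← e1] at hn2
  have e : y⁻¹ * y' = (y⁻¹ * x n0) * (y'⁻¹ * x n0)⁻¹ := by group
  rw [e]
  exact E.mul_mem hn1 (E.inv_mem hn2)

/-- the infinite lines -/
def Lns (F : Set (Subgroup G)) (x : ℕ → G) : Set (Set ℕ) :=
  {L | ∃ y : G, ∃ E ∈ F, L = Ln x y E ∧ L.Infinite}

lemma lns_inter {F : Set (Subgroup G)} (hF : AlmostDisj F) {x : ℕ → G}
    (hx : Function.Injective x) {L L' : Set ℕ}
    (hL : L ∈ Lns F x) (hL' : L' ∈ Lns F x) (hne : L ≠ L') : (L ∩ L').Finite := by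
  obtain ⟨y, E, hE, rfl, -⟩ := hL
  obtain ⟨y', E', hE', rfl, -⟩ := hL'
  by_contra hinf
  obtain ⟨e, hy⟩ := ln_eq hF hx hE hE' hinf
  apply hne
  ext n
  show y⁻¹ * x n ∈ E ↔ y'⁻¹ * x n ∈ E'
  rw [← e]
  have e2 : y⁻¹ * x n = (y⁻¹ * y') * (y'⁻¹ * x n) := by group
  rw [e2]
  exact E.mul_mem_cancel_left hy

lemma lns_finite [Countable G] {F : Set (Subgroup G)} (hF : AlmostDisj F) (hcF : F.Countable)
    {x : ℕ → G} (hx : Function.Injective x)
    (ha : ∀ S : Set ℕ, S.Infinite → ∃ L ∈ Lns F x, (S ∩ L).Infinite) : (Lns F x).Finite := by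
  classical
  by_contra hinf
  have hcount : (Lns F x).Countable := by
    have : Countable F := hcF.to_subtype
    have : Lns F x ⊆ range (fun p : G × F => Ln x p.1 p.2.1) := by
      rintro L ⟨y, E, hE, rfl, -⟩
      exact ⟨(y, ⟨E, hE⟩), rfl⟩
    exact (countable_range _).mono this
  have hc : Countable (Lns F x) := hcount.to_subtype
  have hi : Infinite (Lns F x) := Set.Infinite.to_subtype hinf
  obtain ⟨hden⟩ := nonempty_denumerable (Lns F x)
  let e : Lns F x ≃ ℕ := Denumerable.eqv _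
  let f : ℕ → Set ℕ := fun k => (e.symm k : Set ℕ)
  have hfmem : ∀ k, f k ∈ Lns F x := fun k => (e.symm k).2
  have hfinj : ∀ i j, f i = f j → i = j := by
    intro i j hij
    exact e.symm.injective (Subtype.ext hij)
  have hfinf : ∀ k, (f k \ ⋃ i ∈ Finset.range k, f i).Infinite := by
    intro k
    obtain ⟨y, E, hE, e1, h1⟩ := hfmem k
    have h2 : (f k ∩ ⋃ i ∈ Finset.range k, f i).Finite := by
      rw [inter_iUnion₂]
      refine (Finset.finite_toSet _).biUnion (fun i hi => ?_)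
      refine lns_inter hF hx (hfmem k) (hfmem i) (fun heq => ?_)
      have := hfinj _ _ heq
      have h3 := Finset.mem_range.mp hi
      omega
    intro h3
    exact h1 ((h3.union h2).subset (fun n hn => by
      by_cases h4 : n ∈ ⋃ i ∈ Finset.range k, f i
      · exact Or.inr ⟨hn, h4⟩
      · exact Or.inl ⟨hn, h4⟩))
  choose n hn hnk using fun k => (hfinf k).exists_gt k
  have hSinf : (range n).Infinite := by
    apply infinite_of_not_bddAbove
    rintro ⟨B, hB⟩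
    have := hB ⟨B, rfl⟩
    have h2 := hnk B
    omega
  obtain ⟨L, hL, hSL⟩ := ha _ hSinf
  obtain ⟨i, hi⟩ : ∃ i, f i = L := ⟨e ⟨L, hL⟩, by simp [f]⟩
  apply hSL
  refine ((Finset.range (i + 1)).finite_toSet.image n).subset ?_
  rintro m ⟨⟨k, rfl⟩, hm⟩
  refine ⟨k, ?_, rfl⟩
  rw [Finset.mem_coe, Finset.mem_range]
  by_contra hcon
  have h1 : i < k := by omega
  refine (hn k).2 ?_
  exact mem_biUnion (x := i) (by simpa using h1) (by rw [hi]; exact hm)

/-- **The dichotomy.** -/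
theorem dich [Countable G] {F : Set (Subgroup G)} (hF : AlmostDisj F) (hcF : F.Countable)
    (σ : MulAut G) (hσ : ∀ E ∈ F, σ • E ∈ F) (hσ' : ∀ E ∈ F, σ⁻¹ • E ∈ F) (g : G)
    (hx : Function.Injective (fun n : ℕ => (σ ^ n) g)) :
    (∃ S : Set ℕ, S.Infinite ∧ ∀ E ∈ F, ∀ y : G, {n ∈ S | y⁻¹ * (σ ^ n) g ∈ E}.Finite) ∨
      ∃ m : ℕ, 0 < m ∧ ∃ E ∈ F, (σ ^ m) • E = E ∧ g⁻¹ * (σ ^ m) g ∈ E := by
  classical
  by_cases hgood : ∃ S : Set ℕ, S.Infinite ∧ ∀ E ∈ F, ∀ y : G,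
    {n ∈ S | y⁻¹ * (σ ^ n) g ∈ E}.Finite
  · exact Or.inl hgood
  right
  push Not at hgood
  set x : ℕ → G := fun n : ℕ => (σ ^ n) g with hxdef
  have ha : ∀ S : Set ℕ, S.Infinite → ∃ L ∈ Lns F x, (S ∩ L).Infinite := by
    intro S hS
    obtain ⟨E, hE, y, hy⟩ := hgood S hS
    have hsub : {n ∈ S | y⁻¹ * (σ ^ n) g ∈ E} ⊆ S ∩ Ln x y E := fun n hn => ⟨hn.1, hn.2⟩
    have h1 := Set.Infinite.mono hsub hy
    exact ⟨Ln x y E, ⟨y, E, hE, rfl, h1.mono inter_subset_right⟩, h1⟩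
  have hfin := lns_finite hF hcF hx ha
  obtain ⟨L, ⟨y, E, hE, rfl, hLinf⟩, -⟩ := ha univ infinite_univ
  have hEj : ∀ j : ℕ, (σ ^ j) • E ∈ F := by
    intro j
    induction j with
    | zero => simpa using hE
    | succ j ih => rw [pow_succ', mul_smul]; exact hσ _ ih
  have hEj' : ∀ j : ℕ, ∀ E ∈ F, (σ ^ j)⁻¹ • E ∈ F := by
    intro j
    induction j with
    | zero => intro E hE; simpa using hE
    | succ j ih =>
      intro E hE
      rw [pow_succ, mul_inv_rev, mul_smul]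
      exact hσ' _ (ih E hE)
  have hmem : ∀ (j : ℕ) (z : G), (σ ^ j) z ∈ (σ ^ j) • E ↔ z ∈ E := by
    intro j z
    exact Subgroup.smul_mem_pointwise_smul_iff (a := σ ^ j)
  have hLj : ∀ j : ℕ, Ln x ((σ ^ j) y) ((σ ^ j) • E) ∈ Lns F x := by
    intro j
    refine ⟨_, _, hEj j, rfl, ?_⟩
    refine (hLinf.image (f := fun n => j + n) (fun a _ b _ hab => by simpa using hab)).mono ?_
    rintro _ ⟨n, hn, rfl⟩
    show ((σ ^ j) y)⁻¹ * (σ ^ (j + n)) g ∈ (σ ^ j) • E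
    rw [pow_add, MulAut.mul_apply, ← map_inv, ← map_mul, hmem]
    exact hn
  have hfin' : Finite (Lns F x) := hfin.to_subtype
  obtain ⟨j, j', hjj, heq⟩ := Finite.exists_ne_map_eq_of_infinite
    (fun j : ℕ => (⟨_, hLj j⟩ : Lns F x))
  wlog hlt : j < j' generalizing j j'
  · exact this j' j hjj.symm heq.symm (by omega)
  have heq' : Ln x ((σ ^ j) y) ((σ ^ j) • E) = Ln x ((σ ^ j') y) ((σ ^ j') • E) :=
    congrArg Subtype.val heq
  obtain ⟨-, -, -, -, hinf1⟩ := hLj j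
  obtain ⟨e1, e2⟩ := ln_eq hF hx (hEj j) (hEj j') (y := (σ ^ j) y) (y' := (σ ^ j') y)
    (by rw [← heq', inter_self]; exact hinf1)
  obtain ⟨D, rfl⟩ : ∃ D, j' = j + D := ⟨j' - j, by omega⟩
  have hD : 0 < D := by omega
  have hED : (σ ^ D) • E = E := by
    rw [pow_add, mul_smul] at e1
    exact (MulAction.injective (σ ^ j) e1).symm
  have hy : y⁻¹ * (σ ^ D) y ∈ E := by
    rw [← hmem j, map_mul, map_inv]
    rwa [pow_add, MulAut.mul_apply] at e2
  obtain ⟨n, hn⟩ := hLinf.nonempty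
  have hn' : y⁻¹ * x n ∈ E := hn
  have hn2 : (σ ^ D) (y⁻¹ * x n) ∈ E := by
    have := (hmem D (y⁻¹ * x n)).2 hn'
    rwa [hED] at this
  have hg' : (x n)⁻¹ * (σ ^ D) (x n) ∈ E := by
    have e : (x n)⁻¹ * (σ ^ D) (x n) =
        (y⁻¹ * x n)⁻¹ * (y⁻¹ * (σ ^ D) y) * (σ ^ D) (y⁻¹ * x n) := by
      rw [map_mul, map_inv]; group
    rw [e]
    exact E.mul_mem (E.mul_mem (E.inv_mem hn') hy) hn2
  refine ⟨D, hD, (σ ^ n)⁻¹ • E, hEj' n E hE, ?_, ?_⟩
  · have hc : (σ ^ D) * (σ ^ n)⁻¹ = (σ ^ n)⁻¹ * (σ ^ D) := by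
      rw [mul_inv_eq_iff_eq_mul, mul_assoc, eq_inv_mul_iff_mul_eq, ← pow_add, ← pow_add, add_comm]
    rw [← mul_smul, hc, mul_smul, hED]
  · rw [Subgroup.mem_inv_pointwise_smul_iff]
    show (σ ^ n) (g⁻¹ * (σ ^ D) g) ∈ E
    have e : (σ ^ n) (g⁻¹ * (σ ^ D) g) = (x n)⁻¹ * (σ ^ D) (x n) := by
      show (σ ^ n) (g⁻¹ * (σ ^ D) g) = ((σ ^ n) g)⁻¹ * (σ ^ D) ((σ ^ n) g)
      rw [map_mul, map_inv, ← MulAut.mul_apply, ← MulAut.mul_apply, ← pow_add, ← pow_add,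
        add_comm]
    rw [e]
    exact hg'

end Pool.Agent.P8H72.RH
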