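import Pool.Agent.W726.NS.Dyn
import Pool.Agent.P8H72.RH.Lines

/-!
# Maximal elementary subgroups of convergence groups

`G` acts on an infinite compact Hausdorff space as a convergence group and each point stabiliser has a
torsion-free nilpotent subgroup of finite index.  Two point stabilisers with a common element of
infinite order are equal.  The normalisers of the infinite point stabilisers form a countable family
with pairwise finite intersections, which is invariant under all automorphisms of `G`.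
-/

set_option autoImplicit false
set_option linter.unusedSectionVars false

namespace Pool.Agent.P8H72.RH

open Set Filter Topology MulAction
open scoped Pointwise
open Pool.Agent.W726.NS (ConvergenceAction Ep mem_Ep Ep_le_stabilizer)

variable {G : Type*} [Group G]

/-- torsion-free and nilpotent -/
def TFN (Γ : Subgroup G) : Prop := Group.IsNilpotent Γ ∧ ∀ x ∈ Γ, IsOfFinOrder x → x = 1

/-- a torsion-free nilpotent subgroup of finite index -/
def VTFN (H : Subgroup G) : Prop := ∃ Γ : Subgroup G, Γ ≤ H ∧ Γ.relIndex H ≠ 0 ∧ TFN Γ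

/-- some powers lie in a torsion-free nilpotent subgroup -/
def Rel (h k : G) : Prop := ∃ Γ : Subgroup G, TFN Γ ∧ ∃ n : ℕ, 0 < n ∧ h ^ n ∈ Γ ∧ k ^ n ∈ Γ

lemma TFN.map_aut {Γ : Subgroup G} (h : TFN Γ) (σ : MulAut G) : TFN (σ • Γ) := by
  constructor
  · have e : Γ ≃* (σ • Γ : Subgroup G) := Subgroup.equivSMul σ Γ
    have := h.1
    exact (Group.isNilpotent_congr e).1 this
  · intro x hx hfin
    have h1 : σ⁻¹ x ∈ Γ := by
      rw [Subgroup.mem_pointwise_smul_iff_inv_smul_mem] at hx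
      exact hx
    have h2 : IsOfFinOrder (σ⁻¹ x) := MonoidHom.isOfFinOrder (MulEquiv.toMonoidHom σ⁻¹) hfin
    have h3 := h.2 _ h1 h2
    have h4 : σ (σ⁻¹ x) = x := MulAut.apply_inv_self G σ x
    rw [← h4, h3, map_one]

lemma Rel.map_aut {h k : G} (hr : Rel h k) (σ : MulAut G) : Rel (σ h) (σ k) := by
  obtain ⟨Γ, hΓ, n, hn, h1, h2⟩ := hr
  refine ⟨σ • Γ, hΓ.map_aut σ, n, hn, ?_, ?_⟩
  · rw [← map_pow]
    exact Subgroup.smul_mem_pointwise_smul (m := h ^ n) (a := σ) (S := Γ) h1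
  · rw [← map_pow]
    exact Subgroup.smul_mem_pointwise_smul (m := k ^ n) (a := σ) (S := Γ) h2

lemma Rel.map_iff {h k : G} (σ : MulAut G) : Rel (σ h) (σ k) ↔ Rel h k := by
  refine ⟨fun hr => ?_, fun hr => hr.map_aut σ⟩
  have := hr.map_aut σ⁻¹
  rwa [MulAut.inv_apply_self, MulAut.inv_apply_self] at this

lemma Rel.pow_iff {h k : G} {n : ℕ} (hn : 0 < n) : Rel (h ^ n) (k ^ n) ↔ Rel h k := by
  constructor
  · rintro ⟨Γ, hΓ, m, hm, h1, h2⟩
    exact ⟨Γ, hΓ, n * m, Nat.mul_pos hn hm, by rwa [pow_mul], by rwa [pow_mul]⟩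
  · rintro ⟨Γ, hΓ, m, hm, h1, h2⟩
    refine ⟨Γ, hΓ, m, hm, ?_, ?_⟩
    · rw [← pow_mul, mul_comm, pow_mul]; exact Γ.pow_mem h1 n
    · rw [← pow_mul, mul_comm, pow_mul]; exact Γ.pow_mem h2 n

lemma not_fin_pow {h : G} (hh : ¬ IsOfFinOrder h) {d : ℕ} (hd : 0 < d) : ¬ IsOfFinOrder (h ^ d) :=
  fun h' => hh (h'.of_pow hd.ne')

lemma not_fin_conj {h : G} (hh : ¬ IsOfFinOrder h) (g : G) : ¬ IsOfFinOrder (g * h * g⁻¹) := by
  intro h1
  apply hh
  have h2 : IsOfFinOrder ((MulAut.conj g)⁻¹ (g * h * g⁻¹)) :=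
    MonoidHom.isOfFinOrder (MulEquiv.toMonoidHom (MulAut.conj g)⁻¹) h1
  have h3 : (MulAut.conj g)⁻¹ (g * h * g⁻¹) = h := by
    rw [← MulAut.conj_apply, MulAut.inv_apply_self]
  rwa [h3] at h2

lemma VTFN.pow {H : Subgroup G} (hH : VTFN H) {x y : G} (hx : x ∈ H) (hy : y ∈ H) : Rel x y := by
  obtain ⟨Γ, hle, hidx, hT⟩ := hH
  obtain ⟨m, hm, -, h1⟩ := Subgroup.exists_pow_mem_of_relIndex_ne_zero hidx hx
  obtain ⟨n, hn, -, h2⟩ := Subgroup.exists_pow_mem_of_relIndex_ne_zero hidx hy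
  refine ⟨Γ, hT, m * n, Nat.mul_pos hm hn, ?_, ?_⟩
  · rw [pow_mul]; exact Γ.pow_mem h1.1 n
  · rw [mul_comm, pow_mul]; exact Γ.pow_mem h2.1 m

/-- an infinite subgroup contains an element of infinite order -/
lemma VTFN.exists_inf {H : Subgroup G} (hH : VTFN H) {S : Set G} (hS : S.Infinite)
    {K : Subgroup G} (hK : K ≤ H) (hSK : S ⊆ K) : ∃ x ∈ K, ¬ IsOfFinOrder x := by
  classical
  obtain ⟨Γ, hle, hidx, hT⟩ := hH
  have hfi : (Γ.subgroupOf H).FiniteIndex := ⟨hidx⟩
  have hfin : Finite (H ⧸ Γ.subgroupOf H) := Subgroup.finite_quotient_of_finiteIndex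
  have hSi : Infinite S := hS.to_subtype
  obtain ⟨x, y, hxy, he⟩ := Finite.exists_ne_map_eq_of_infinite
    (fun s : S => (QuotientGroup.mk ⟨s.1, hK (hSK s.2)⟩ : H ⧸ Γ.subgroupOf H))
  have h1 : (⟨x.1, hK (hSK x.2)⟩ : H)⁻¹ * ⟨y.1, hK (hSK y.2)⟩ ∈ Γ.subgroupOf H :=
    QuotientGroup.eq.1 he
  have h2 : x.1⁻¹ * y.1 ∈ Γ := h1
  refine ⟨x.1⁻¹ * y.1, K.mul_mem (K.inv_mem (hSK x.2)) (hSK y.2), fun hf => ?_⟩
  have h3 := hT.2 _ h2 hf
  exact hxy (Subtype.ext (inv_mul_eq_one.mp h3))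

variable {X : Type*} [TopologicalSpace X] [CompactSpace X] [T2Space X] [MulAction G X]

/-- an element of infinite order has at most two fixed points -/
lemma fix_le_two (hG : ConvergenceAction G X) {h : G} (hh : ¬ IsOfFinOrder h) :
    ∃ a b : X, ∀ p : X, h • p = p → p = a ∨ p = b := by
  obtain ⟨hcont, hconv⟩ := hG
  obtain ⟨φ, hφ, a, b, hab⟩ := hconv (fun n : ℕ => h ^ n)
    (injective_pow_iff_not_isOfFinOrder.mpr hh)
  refine ⟨a, b, fun p hp => ?_⟩
  by_cases hpb : p = b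
  · exact Or.inr hpb
  left
  have hpn : ∀ n : ℕ, (h ^ n) • p = p := by
    intro n
    induction n with
    | zero => rw [pow_zero, one_smul]
    | succ n ih => rw [pow_succ, mul_smul, hp, ih]
  by_contra hpa
  have hU : ({p}ᶜ : Set X) ∈ 𝓝 a := isOpen_compl_singleton.mem_nhds (fun h1 => hpa h1.symm)
  have hV : ({p}ᶜ : Set X) ∈ 𝓝 b := isOpen_compl_singleton.mem_nhds (fun h1 => hpb h1.symm)
  obtain ⟨n, hn⟩ := (hab _ hU _ hV).exists
  have h1 := hn p (by simp)
  rw [hpn] at h1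
  exact h1 rfl

/-- the form used below: three fixed points, the first two distinct -/
lemma fix_three (hG : ConvergenceAction G X) {h : G} (hh : ¬ IsOfFinOrder h) {p q r : X}
    (hpq : p ≠ q) (hp : h • p = p) (hq : h • q = q) (hr : h • r = r) : r = p ∨ r = q := by
  obtain ⟨a, b, hab⟩ := fix_le_two hG hh
  rcases hab p hp with h1 | h1 <;> rcases hab q hq with h2 | h2 <;> rcases hab r hr with h3 | h3
  · exact absurd (h1.trans h2.symm) hpq
  · exact absurd (h1.trans h2.symm) hpq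
  · exact Or.inl (h3.trans h1.symm)
  · exact Or.inr (h3.trans h2.symm)
  · exact Or.inr (h3.trans h2.symm)
  · exact Or.inl (h3.trans h1.symm)
  · exact absurd (h1.trans h2.symm) hpq
  · exact absurd (h1.trans h2.symm) hpq

lemma pow_fix {h : G} {p : X} (hp : h • p = p) (n : ℕ) : (h ^ n) • p = p := by
  induction n with
  | zero => rw [pow_zero, one_smul]
  | succ n ih => rw [pow_succ, mul_smul, hp, ih]

/-- related elements of infinite order have powers with a common fixed point -/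
lemma rel_point [Infinite X] (hG : ConvergenceAction G X) {h k : G} (hh : ¬ IsOfFinOrder h)
    (hr : Rel h k) : ∃ a : X, ∃ n : ℕ, 0 < n ∧ (h ^ n) • a = a ∧ (k ^ n) • a = a := by
  obtain ⟨Γ, ⟨hnil, htf⟩, n, hn, h1, h2⟩ := hr
  have hne : h ^ n ≠ 1 := fun h3 => not_fin_pow hh hn (by rw [h3]; exact IsOfFinOrder.one)
  have : Nontrivial Γ := ⟨⟨⟨h ^ n, h1⟩, 1, fun h4 => hne (congrArg Subtype.val h4)⟩⟩
  have hc := Group.IsNilpotent.center_ne_bot Γ
  obtain ⟨z, hz, hz1⟩ := (Subgroup.ne_bot_iff_exists_ne_one).1 hc |>.imp (fun z hz => hz) |>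
    (fun ⟨z, hz⟩ => (⟨z.1, z.2, fun h5 => hz (Subtype.ext h5)⟩ :
      ∃ z : Γ, z ∈ Subgroup.center Γ ∧ z ≠ 1))
  have hzi : ¬ IsOfFinOrder (z : G) := fun h5 => hz1 (Subtype.ext (htf _ z.2 h5))
  obtain ⟨a, ha⟩ := Ep_le_stabilizer (X := X) hG (z : G) hzi
  have hle : ∀ x ∈ Γ, x • a = a := by
    intro x hx
    have h6 : x ∈ Ep (z : G) := by
      refine mem_Ep.2 ⟨1, one_pos, ?_⟩
      rw [pow_one]
      have := (Subgroup.mem_center_iff.1 hz) ⟨x, hx⟩
      exact congrArg Subtype.val this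
    exact mem_stabilizer_iff.1 (ha h6)
  exact ⟨a, n, hn, hle _ h1, hle _ h2⟩

/-- **Point stabilisers with a common element of infinite order are equal.** -/
theorem stab_le (hG : ConvergenceAction G X) (hst : ∀ p : X, VTFN (stabilizer G p)) {p q : X}
    (hpq : p ≠ q) {k : G} (hk : ¬ IsOfFinOrder k) (hp : k • p = p) (hq : k • q = q) :
    stabilizer G p ≤ stabilizer G q := by
  obtain ⟨Γ, hle, hidx, hnil, htf⟩ := hst p
  obtain ⟨j, hj, -, hkj⟩ := Subgroup.exists_pow_mem_of_relIndex_ne_zero hidx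
    (mem_stabilizer_iff.2 hp)
  have hkj' : ¬ IsOfFinOrder (k ^ j) := not_fin_pow hk hj
  have hne : k ^ j ≠ 1 := fun h3 => hkj' (by rw [h3]; exact IsOfFinOrder.one)
  have : Nontrivial Γ := ⟨⟨⟨k ^ j, hkj.1⟩, 1, fun h4 => hne (congrArg Subtype.val h4)⟩⟩
  have hc := Group.IsNilpotent.center_ne_bot Γ
  obtain ⟨z, hz, hz1⟩ := (Subgroup.ne_bot_iff_exists_ne_one).1 hc |>.imp (fun z hz => hz) |>
    (fun ⟨z, hz⟩ => (⟨z.1, z.2, fun h5 => hz (Subtype.ext h5)⟩ :
      ∃ z : Γ, z ∈ Subgroup.center Γ ∧ z ≠ 1))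
  have hzi : ¬ IsOfFinOrder (z : G) := fun h5 => hz1 (Subtype.ext (htf _ z.2 h5))
  have hcomm : ∀ x ∈ Γ, x * (z : G) = z * x := by
    intro x hx
    have := (Subgroup.mem_center_iff.1 hz) ⟨x, hx⟩
    exact congrArg Subtype.val this
  have hzp : (z : G) • p = p := mem_stabilizer_iff.1 (hle z.2)
  -- `z` fixes `q`
  have hzq : (z : G) • q = q := by
    have h1 : (k ^ j) • ((z : G) • q) = (z : G) • q := by
      rw [← mul_smul, hcomm _ hkj.1, mul_smul, pow_fix hq]
    rcases fix_three hG hkj' hpq (pow_fix hp j) (pow_fix hq j) h1 with h2 | h2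
    · exfalso
      have h3 : (z : G) • q = (z : G) • p := by rw [h2, hzp]
      exact hpq ((smul_left_cancel (z : G) h3).symm)
    · exact h2
  intro g hg
  have hgp : g • p = p := mem_stabilizer_iff.1 hg
  have hw : g * (z : G) * g⁻¹ ∈ stabilizer G p := by
    rw [mem_stabilizer_iff, mul_smul, mul_smul]
    have h1 : g⁻¹ • p = p := by rw [inv_smul_eq_iff, hgp]
    rw [h1, hzp, hgp]
  obtain ⟨m, hm, -, hwm⟩ := Subgroup.exists_pow_mem_of_relIndex_ne_zero hidx hw
  set w : G := (g * (z : G) * g⁻¹) ^ m with hwdef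
  have hwp : w • p = p := mem_stabilizer_iff.1 (hle hwm.1)
  have hwinf : ¬ IsOfFinOrder w := not_fin_pow (not_fin_conj hzi g) hm
  have hwq : w • q = q := by
    have h1 : (z : G) • (w • q) = w • q := by
      rw [← mul_smul, ← hcomm _ hwm.1, mul_smul, hzq]
    rcases fix_three hG hzi hpq hzp hzq h1 with h2 | h2
    · exfalso
      have h3 : w • q = w • p := by rw [h2, hwp]
      exact hpq ((smul_left_cancel w h3).symm)
    · exact h2
  have hwgq : w • (g • q) = g • q := by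
    have h1 : w = g * (z : G) ^ m * g⁻¹ := by rw [hwdef, conj_pow]
    rw [h1, mul_smul, mul_smul, inv_smul_smul, pow_fix hzq]
  rw [mem_stabilizer_iff]
  rcases fix_three hG hwinf hpq hwp hwq hwgq with h2 | h2
  · exfalso
    have h3 : g • q = g • p := by rw [h2, hgp]
    exact hpq ((smul_left_cancel g h3).symm)
  · exact h2

theorem stab_eq (hG : ConvergenceAction G X) (hst : ∀ p : X, VTFN (stabilizer G p)) {p q : X}
    {k : G} (hk : ¬ IsOfFinOrder k) (hp : k • p = p) (hq : k • q = q) :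
    stabilizer G p = stabilizer G q := by
  by_cases hpq : p = q
  · rw [hpq]
  exact le_antisymm (stab_le hG hst hpq hk hp hq) (stab_le hG hst (Ne.symm hpq) hk hq hp)

/-- the normaliser of a stabiliser -/
def NN (G : Type*) [Group G] {X : Type*} [MulAction G X] (a : X) : Subgroup G :=
  Subgroup.normalizer ((stabilizer G a : Subgroup G) : Set G)

lemma mem_NN {a : X} {g : G} : g ∈ NN G a ↔ stabilizer G (g • a) = stabilizer G a := by
  rw [stabilizer_smul_eq_stabilizer_map_conj, NN, Subgroup.mem_normalizer_iff]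
  constructor
  · intro h
    ext x
    rw [Subgroup.mem_map_equiv]
    show (MulAut.conj g).symm x ∈ stabilizer G a ↔ _
    rw [MulAut.conj_symm_apply]
    have h1 := h (g⁻¹ * x * g)
    have e : g * (g⁻¹ * x * g) * g⁻¹ = x := by group
    rw [e] at h1
    exact h1
  · intro h x
    constructor
    · intro hx
      have : g * x * g⁻¹ ∈ (stabilizer G a).map (MulAut.conj g).toMonoidHom :=
        ⟨x, hx, rfl⟩
      rwa [h] at this
    · intro hx
      have hx' : g * x * g⁻¹ ∈ (stabilizer G a).map (MulAut.conj g).toMonoidHom := by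
        rw [h]; exact hx
      obtain ⟨y, hy, hy'⟩ := hx'
      have h2 : g * y * g⁻¹ = g * x * g⁻¹ := hy'
      have h3 : y = x := by
        have := mul_right_cancel h2
        exact mul_left_cancel this
      rwa [h3] at hy

lemma stab_le_NN (a : X) : stabilizer G a ≤ NN G a := Subgroup.le_normalizer

/-- **An algebraic description of the normaliser.** -/
theorem mem_NN_iff_rel [Infinite X] (hG : ConvergenceAction G X)
    (hst : ∀ p : X, VTFN (stabilizer G p)) {a : X} {h : G} (hh : ¬ IsOfFinOrder h)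
    (ha : h • a = a) (g : G) : g ∈ NN G a ↔ Rel (g * h * g⁻¹) h := by
  rw [mem_NN]
  constructor
  · intro he
    refine (hst a).pow ?_ (mem_stabilizer_iff.2 ha)
    rw [← he, mem_stabilizer_iff, mul_smul, mul_smul, inv_smul_smul, ha]
  · intro hr
    obtain ⟨b, n, hn, h1, h2⟩ := rel_point (X := X) hG (not_fin_conj hh g) hr
    have e1 : stabilizer G a = stabilizer G b :=
      stab_eq hG hst (not_fin_pow hh hn) (pow_fix ha n) h2
    have e2 : stabilizer G (g • a) = stabilizer G b := by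
      refine stab_eq hG hst (not_fin_pow (not_fin_conj hh g) hn) ?_ h1
      rw [conj_pow, mul_smul, mul_smul, inv_smul_smul, pow_fix ha]
    rw [e1, e2]

/-- the family of the normalisers of the infinite stabilisers -/
def Fam (G : Type*) [Group G] (X : Type*) [MulAction G X] : Set (Subgroup G) :=
  {E | ∃ a : X, (stabilizer G a : Set G).Infinite ∧ E = NN G a}

lemma exists_inf_stab (hst : ∀ p : X, VTFN (stabilizer G p)) {a : X}
    (ha : (stabilizer G a : Set G).Infinite) : ∃ h : G, ¬ IsOfFinOrder h ∧ h • a = a := by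
  obtain ⟨x, hx, hxi⟩ := (hst a).exists_inf ha (K := stabilizer G a) le_rfl subset_rfl
  exact ⟨x, hxi, mem_stabilizer_iff.1 hx⟩

lemma inf_of_inf {a : X} {h : G} (hh : ¬ IsOfFinOrder h) (ha : h • a = a) :
    (stabilizer G a : Set G).Infinite := by
  refine (Set.infinite_range_of_injective (injective_pow_iff_not_isOfFinOrder.mpr hh)).mono ?_
  rintro _ ⟨n, rfl⟩
  exact mem_stabilizer_iff.2 (pow_fix ha n)

theorem fam_rel [Infinite X] (hG : ConvergenceAction G X) (hst : ∀ p : X, VTFN (stabilizer G p))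
    {E : Subgroup G} (hE : E ∈ Fam G X) :
    ∃ h : G, ¬ IsOfFinOrder h ∧ ∀ g, g ∈ E ↔ Rel (g * h * g⁻¹) h := by
  obtain ⟨a, ha, rfl⟩ := hE
  obtain ⟨h, hh, hha⟩ := exists_inf_stab hst ha
  exact ⟨h, hh, mem_NN_iff_rel hG hst hh hha⟩

theorem fam_of_rel [Infinite X] (hG : ConvergenceAction G X)
    (hst : ∀ p : X, VTFN (stabilizer G p)) {E : Subgroup G} {h : G} (hh : ¬ IsOfFinOrder h)
    (hr : Rel h h) (hE : ∀ g, g ∈ E ↔ Rel (g * h * g⁻¹) h) : E ∈ Fam G X := by
  obtain ⟨b, n, hn, h1, -⟩ := rel_point (X := X) hG hh hr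
  refine ⟨b, inf_of_inf (not_fin_pow hh hn) h1, ?_⟩
  ext g
  rw [hE, mem_NN_iff_rel hG hst (not_fin_pow hh hn) h1, ← conj_pow, Rel.pow_iff hn]

theorem fam_smul [Infinite X] (hG : ConvergenceAction G X)
    (hst : ∀ p : X, VTFN (stabilizer G p)) (σ : MulAut G) :
    ∀ E ∈ Fam G X, σ • E ∈ Fam G X := by
  rintro E ⟨a, ha, rfl⟩
  obtain ⟨h, hh, hha⟩ := exists_inf_stab hst ha
  have hσh : ¬ IsOfFinOrder (σ h) := by
    intro hf
    apply hh
    have : IsOfFinOrder (σ⁻¹ (σ h)) := MonoidHom.isOfFinOrder (MulEquiv.toMonoidHom σ⁻¹) hf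
    rwa [MulAut.inv_apply_self] at this
  have hself : Rel h h := (hst a).pow (mem_stabilizer_iff.2 hha) (mem_stabilizer_iff.2 hha)
  refine fam_of_rel hG hst hσh (hself.map_aut σ) fun g => ?_
  rw [Subgroup.mem_pointwise_smul_iff_inv_smul_mem]
  show σ⁻¹ g ∈ NN G a ↔ _
  rw [mem_NN_iff_rel hG hst hh hha, ← Rel.map_iff σ, map_mul, map_mul, map_inv,
    MulAut.apply_inv_self]

theorem fam_countable [Infinite X] [Countable G] (hG : ConvergenceAction G X)
    (hst : ∀ p : X, VTFN (stabilizer G p)) : (Fam G X).Countable := by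
  classical
  choose h hh using fun E : Fam G X => fam_rel hG hst E.2
  have hinj : Function.Injective h := by
    intro E E' he
    apply Subtype.ext
    ext g
    rw [(hh E).2, (hh E').2, he]
  exact Set.countable_coe_iff.1 hinj.countable

theorem fam_disj (hG : ConvergenceAction G X) (hst : ∀ p : X, VTFN (stabilizer G p)) :
    AlmostDisj (Fam G X) := by
  classical
  rintro E ⟨a, ha, rfl⟩ E' ⟨b, hb, rfl⟩ hinf
  have hfinP : ∀ c : X, (stabilizer G c : Set G).Infinite →
      {p : X | stabilizer G p = stabilizer G c}.Finite := by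
    intro c hc
    obtain ⟨h, hh, hhc⟩ := exists_inf_stab hst hc
    obtain ⟨x, y, hxy⟩ := fix_le_two hG hh
    refine (Set.toFinite ({x, y} : Set X)).subset ?_
    intro p hp
    have h1 : h ∈ stabilizer G p := by
      rw [show stabilizer G p = stabilizer G c from hp]
      exact mem_stabilizer_iff.2 hhc
    rcases hxy p (mem_stabilizer_iff.1 h1) with h2 | h2
    · exact Or.inl h2
    · exact Or.inr h2
  have hA := hfinP a ha
  have hB := hfinP b hb
  set S : Set G := ((NN G a : Subgroup G) : Set G) ∩ (NN G b : Subgroup G) with hSdef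
  have hmaps : Set.MapsTo (fun g : G => ((g • a, g • b) : X × X)) S
      ({p : X | stabilizer G p = stabilizer G a} ×ˢ {p : X | stabilizer G p = stabilizer G b}) := by
    rintro g ⟨h1, h2⟩
    exact ⟨mem_NN.1 h1, mem_NN.1 h2⟩
  obtain ⟨⟨p, q⟩, hpq⟩ : ∃ pq : X × X,
      (S ∩ (fun g : G => ((g • a, g • b) : X × X)) ⁻¹' {pq}).Infinite := by
    by_contra hcon
    apply hinf
    refine ((hA.prod hB).biUnion (fun pq _ => Set.not_infinite.1 (not_exists.1 hcon pq))).subset ?_
    intro g hg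
    rw [Set.mem_iUnion₂]
    exact ⟨(g • a, g • b), hmaps hg, hg, rfl⟩
  obtain ⟨g0, hg0⟩ := hpq.nonempty
  have hg1 : g0 • a = p ∧ g0 • b = q := by
    have := hg0.2
    simpa using this
  have hinf2 : ((fun g : G => g0⁻¹ * g) '' (S ∩ (fun g : G => ((g • a, g • b) : X × X)) ⁻¹'
      {(p, q)})).Infinite := hpq.image (fun x _ y _ hxy => mul_left_cancel hxy)
  obtain ⟨k, hk, hki⟩ := (hst a).exists_inf hinf2 (K := stabilizer G a ⊓ stabilizer G b)
    inf_le_left (by
      rintro _ ⟨g, ⟨-, hg⟩, rfl⟩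
      have hg' : g • a = p ∧ g • b = q := by simpa using hg
      refine ⟨?_, ?_⟩
      · show g0⁻¹ * g ∈ stabilizer G a
        rw [mem_stabilizer_iff, mul_smul, hg'.1, ← hg1.1, inv_smul_smul]
      · show g0⁻¹ * g ∈ stabilizer G b
        rw [mem_stabilizer_iff, mul_smul, hg'.2, ← hg1.2, inv_smul_smul])
  have e := stab_eq hG hst hki (mem_stabilizer_iff.1 hk.1) (mem_stabilizer_iff.1 hk.2)
  rw [NN, NN, e]

end Pool.Agent.P8H72.RH
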