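import Pool.Agent.P8H72.RH.Rel
import Pool.Agent.P8H72.RH.Torus

/-!
# Automorphisms with an inner power

If some power of `σ` is an inner automorphism then the mapping tori of the returns of `σ` to the
normalisers of the infinite point stabilisers are virtually nilpotent.
-/

set_option autoImplicit false
set_option linter.unusedSectionVars false

namespace Pool.Agent.P8H72.RH

open Set Filter Topology MulAction
open scoped Pointwise
open Pool.Agent.W726.NS (ConvergenceAction)

section general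

variable {G : Type*} [Group G]

/-- the larger torus is a finite extension of the smaller one -/
theorem torus_index (σ : MulAut G) (E : Subgroup G) (m d : ℕ) (hd : 0 < d)
    (hE : ∀ x, (σ ^ m) x ∈ E ↔ x ∈ E) :
    torus σ E (m * d) ≤ torus σ E m ∧ (torus σ E (m * d)).relIndex (torus σ E m) ≠ 0 := by
  classical
  set T1 := torus σ E (m * d) with hT1
  set T2 := torus σ E m with hT2
  set t := tt σ ^ m with ht
  have htE : tt σ ^ (m * d) = t ^ d := by rw [pow_mul]
  have hEin : ∀ e ∈ E, (SemidirectProduct.inl e : MT σ) ∈ T1 := fun e he =>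
    Subgroup.subset_closure (Or.inl ⟨e, he, rfl⟩)
  have htd : t ^ d ∈ T1 := by rw [← htE]; exact Subgroup.subset_closure (Or.inr rfl)
  have ht2 : t ∈ T2 := Subgroup.subset_closure (Or.inr rfl)
  have hle : T1 ≤ T2 := by
    rw [hT1, torus, Subgroup.closure_le]
    rintro x (⟨e, he, rfl⟩ | hx)
    · exact Subgroup.subset_closure (Or.inl ⟨e, he, rfl⟩)
    · rw [Set.mem_singleton_iff] at hx
      rw [hx, htE]
      exact T2.pow_mem ht2 d
  refine ⟨hle, ?_⟩
  -- `t` normalises `T1`
  have hconj : ∀ x ∈ T1, t * x * t⁻¹ ∈ T1 := by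
    intro x hx
    have h1 : T1 ≤ T1.comap (MulAut.conj t).toMonoidHom := by
      rw [hT1, torus, Subgroup.closure_le]
      rintro y (⟨e, he, rfl⟩ | hy)
      · show t * SemidirectProduct.inl e * t⁻¹ ∈ T1
        rw [ht, tt_conj_pow]
        exact hEin _ ((hE e).2 he)
      · rw [Set.mem_singleton_iff] at hy
        show t * y * t⁻¹ ∈ T1
        rw [hy, htE, ← pow_succ', pow_succ, mul_inv_cancel_right]
        exact htd
    exact h1 hx
  have hconj' : ∀ x ∈ T1, t⁻¹ * x * t ∈ T1 := by
    intro x hx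
    have h1 : T1 ≤ T1.comap (MulAut.conj t⁻¹).toMonoidHom := by
      rw [hT1, torus, Subgroup.closure_le]
      rintro y (⟨e, he, rfl⟩ | hy)
      · show t⁻¹ * SemidirectProduct.inl e * t⁻¹⁻¹ ∈ T1
        rw [inv_inv]
        have h2 := tt_conj_pow σ m (((σ ^ m)⁻¹) e)
        rw [MulAut.apply_inv_self] at h2
        have h3 : t⁻¹ * SemidirectProduct.inl e * t = SemidirectProduct.inl (((σ ^ m)⁻¹) e) := by
          rw [← h2, ht]; group
        rw [h3]
        refine hEin _ ((hE _).1 ?_)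
        rw [MulAut.apply_inv_self]
        exact he
      · rw [Set.mem_singleton_iff] at hy
        show t⁻¹ * y * t⁻¹⁻¹ ∈ T1
        rw [hy, htE, inv_inv]
        have : t⁻¹ * t ^ d * t = t ^ d := by
          rw [mul_assoc, ← pow_succ, pow_succ', inv_mul_cancel_left]
        rw [this]
        exact htd
    have h2 := h1 hx
    have h3 : t⁻¹ * x * t⁻¹⁻¹ ∈ T1 := h2
    rwa [inv_inv] at h3
  have hconjz : ∀ (j : ℤ), ∀ x ∈ T1, t ^ (-j) * x * t ^ j ∈ T1 := by
    have hnat : ∀ j : ℕ, ∀ x ∈ T1, (t ^ j)⁻¹ * x * t ^ j ∈ T1 := by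
      intro j
      induction j with
      | zero => intro x hx; simpa using hx
      | succ j ih =>
        intro x hx
        have h1 := hconj' _ (ih x hx)
        have e : t⁻¹ * ((t ^ j)⁻¹ * x * t ^ j) * t = (t ^ (j + 1))⁻¹ * x * t ^ (j + 1) := by
          rw [pow_succ, mul_inv_rev]; group
        rwa [e] at h1
    have hnat' : ∀ j : ℕ, ∀ x ∈ T1, t ^ j * x * (t ^ j)⁻¹ ∈ T1 := by
      intro j
      induction j with
      | zero => intro x hx; simpa using hx
      | succ j ih =>
        intro x hx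
        have h1 := hconj _ (ih x hx)
        have e : t * (t ^ j * x * (t ^ j)⁻¹) * t⁻¹ = t ^ (j + 1) * x * (t ^ (j + 1))⁻¹ := by
          rw [pow_succ', mul_inv_rev]; group
        rwa [e] at h1
    intro j x hx
    obtain ⟨k, rfl | rfl⟩ := j.eq_nat_or_neg
    · rw [zpow_neg, zpow_natCast]; exact hnat k x hx
    · rw [neg_neg, zpow_neg, zpow_natCast]; exact hnat' k x hx
  -- normal form
  have hform : ∀ x ∈ T2, ∃ j : ℤ, ∃ y ∈ T1, x = t ^ j * y := by
    intro x hx
    rw [hT2, torus] at hx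
    induction hx using Subgroup.closure_induction with
    | mem x hx =>
      rcases hx with ⟨e, he, rfl⟩ | hx
      · exact ⟨0, _, hEin e he, by simp⟩
      · rw [Set.mem_singleton_iff] at hx
        exact ⟨1, 1, T1.one_mem, by rw [hx, zpow_one, mul_one]⟩
    | one => exact ⟨0, 1, T1.one_mem, by simp⟩
    | mul x y _ _ hx hy =>
      obtain ⟨i, a, ha, rfl⟩ := hx
      obtain ⟨j, b, hb, rfl⟩ := hy
      refine ⟨i + j, (t ^ (-j) * a * t ^ j) * b, T1.mul_mem (hconjz j a ha) hb, ?_⟩
      rw [zpow_add, zpow_neg]; group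
    | inv x _ hx =>
      obtain ⟨i, a, ha, rfl⟩ := hx
      refine ⟨-i, t ^ i * a⁻¹ * t ^ (-i), ?_, ?_⟩
      · have := hconjz (-i) a⁻¹ (T1.inv_mem ha)
        rwa [neg_neg] at this
      · rw [zpow_neg]; group
  have hform2 : ∀ x ∈ T2, ∃ r : Fin d, ∃ y ∈ T1, x = t ^ (r : ℕ) * y := by
    intro x hx
    obtain ⟨j, y, hy, rfl⟩ := hform x hx
    have hd' : (0 : ℤ) < d := by exact_mod_cast hd
    have h1 := Int.emod_nonneg j hd'.ne'
    have h2 := Int.emod_lt_of_pos j hd'
    refine ⟨⟨(j % d).toNat, by omega⟩, (t ^ d) ^ (j / d) * y,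
      T1.mul_mem (T1.zpow_mem htd _) hy, ?_⟩
    have h3 : t ^ j = t ^ ((j % d).toNat) * (t ^ d) ^ (j / d) := by
      rw [← zpow_natCast, ← zpow_natCast t d, ← zpow_mul, ← zpow_add, Int.toNat_of_nonneg h1,
        Int.emod_add_mul_ediv]
    rw [h3, mul_assoc]
  have hfin : Finite (T2 ⧸ T1.subgroupOf T2) := by
    have hsurj : Function.Surjective (fun r : Fin d =>
        (QuotientGroup.mk ⟨t ^ (r : ℕ), T2.pow_mem ht2 _⟩ : T2 ⧸ T1.subgroupOf T2)) := by
      intro z
      obtain ⟨⟨x, hx⟩, rfl⟩ := QuotientGroup.mk_surjective z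
      obtain ⟨r, y, hy, hxy⟩ := hform2 x hx
      refine ⟨r, ?_⟩
      rw [QuotientGroup.eq, Subgroup.mem_subgroupOf]
      show (t ^ (r : ℕ))⁻¹ * x ∈ T1
      rw [hxy, inv_mul_cancel_left]
      exact hy
    exact Finite.of_surjective _ hsurj
  have : (T1.subgroupOf T2).FiniteIndex := Subgroup.finiteIndex_of_finite_quotient
  exact this.index_ne_zero

theorem virt_of_relIndex {H : Type*} [Group H] {N K : Subgroup H} (hN : Group.IsNilpotent N)
    (hle : N ≤ K) (hidx : N.relIndex K ≠ 0) : Group.IsVirtuallyNilpotent K := by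
  refine ⟨N.subgroupOf K, ?_, ⟨hidx⟩⟩
  exact (Group.isNilpotent_congr (Subgroup.subgroupOfEquivOfLe hle)).2 hN

theorem torus_virt (σ : MulAut G) {E Γ : Subgroup G} (hΓ : Group.IsNilpotent Γ) (hle : Γ ≤ E)
    (hidx : Γ.relIndex E ≠ 0) (m d : ℕ) (hd : 0 < d) (hE : ∀ x, (σ ^ m) x ∈ E ↔ x ∈ E) (h : G)
    (hh : h ∈ E) (hσ : ∀ x, (σ ^ (m * d)) x = h * x * h⁻¹) :
    Group.IsVirtuallyNilpotent (torus σ E m) := by
  obtain ⟨h1, h2⟩ := torus_index σ E m d hd hE
  set i : G →* MT σ := SemidirectProduct.inl with hi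
  set t := tt σ ^ (m * d) with ht
  set c : MT σ := (i h)⁻¹ * t with hc
  have hcomm : ∀ x : G, Commute (i x) c := by
    intro x
    have h3 : t * i x * t⁻¹ = i (h * x * h⁻¹) := by rw [ht, hi, tt_conj_pow, hσ]
    have h4 : t * i x = i h * i x * (i h)⁻¹ * t := by
      rw [map_mul, map_mul, map_inv] at h3
      rw [← h3]; group
    show i x * c = c * i x
    rw [hc, mul_assoc, h4]
    group
  let F : G × Multiplicative ℤ →* MT σ := MonoidHom.noncommCoprod i (zpowersHom _ c) (fun x n => by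
    rw [zpowersHom_apply]; exact (hcomm x).zpow_right _)
  have hF : ∀ x n, F (x, n) = i x * c ^ (Multiplicative.toAdd n) := by
    intro x n
    rw [MonoidHom.noncommCoprod_apply, zpowersHom_apply]
  have himg : (E.prod ⊤).map F = torus σ E (m * d) := by
    apply le_antisymm
    · rintro _ ⟨⟨x, n⟩, ⟨hx, -⟩, rfl⟩
      rw [hF]
      have h5 : c ∈ torus σ E (m * d) := by
        refine Subgroup.mul_mem _ (Subgroup.inv_mem _ ?_) ?_
        · exact Subgroup.subset_closure (Or.inl ⟨h, hh, rfl⟩)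
        · exact Subgroup.subset_closure (Or.inr rfl)
      exact Subgroup.mul_mem _ (Subgroup.subset_closure (Or.inl ⟨x, hx, rfl⟩))
        (Subgroup.zpow_mem _ h5 _)
    · rw [torus, Subgroup.closure_le]
      rintro y (⟨e, he, rfl⟩ | hy)
      · exact ⟨(e, 1), ⟨he, trivial⟩, by rw [hF]; simp [hi]⟩
      · rw [Set.mem_singleton_iff] at hy
        refine ⟨(h, Multiplicative.ofAdd 1), ⟨hh, trivial⟩, ?_⟩
        rw [hF, hy]
        show i h * c ^ (1 : ℤ) = t
        rw [zpow_one, hc, mul_inv_cancel_left]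
  set N : Subgroup (MT σ) := (Γ.prod ⊤).map F with hN
  have hNn : Group.IsNilpotent N := by
    have h6 : Group.IsNilpotent (Γ.prod (⊤ : Subgroup (Multiplicative ℤ))) :=
      (Group.isNilpotent_congr (Subgroup.prodEquiv Γ (⊤ : Subgroup (Multiplicative ℤ)))).2
        inferInstance
    exact Group.nilpotent_of_surjective (F.subgroupMap (Γ.prod ⊤))
      (F.subgroupMap_surjective (Γ.prod ⊤))
  have hNle : N ≤ torus σ E (m * d) := by
    rw [← himg]
    exact Subgroup.map_mono (Subgroup.prod_mono hle le_rfl)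
  have hNidx : N.relIndex (torus σ E (m * d)) ≠ 0 := by
    have h7 : (Γ.prod (⊤ : Subgroup (Multiplicative ℤ))).relIndex (E.prod ⊤) ≠ 0 := by
      rw [Subgroup.prod_top, Subgroup.prod_top]
      exact Subgroup.relIndex_comap_ne_zero _ hidx
    rw [← himg, ← Subgroup.relIndex_comap]
    intro h0
    exact h7 (Subgroup.relIndex_eq_zero_of_le_left (Subgroup.le_comap_map F _) h0)
  refine virt_of_relIndex hNn (hNle.trans h1) ?_
  rw [← Subgroup.relIndex_mul_relIndex N _ _ hNle h1]
  exact mul_ne_zero hNidx h2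

end general

variable {G : Type*} [Group G]
variable {X : Type*} [TopologicalSpace X] [CompactSpace X] [T2Space X] [MulAction G X]

theorem fin_same (hG : ConvergenceAction G X) (hst : ∀ p : X, VTFN (stabilizer G p)) {c : X}
    (hc : (stabilizer G c : Set G).Infinite) :
    {p : X | stabilizer G p = stabilizer G c}.Finite := by
  obtain ⟨h, hh, hhc⟩ := exists_inf_stab hst hc
  obtain ⟨x, y, hxy⟩ := fix_le_two hG hh
  refine (Set.toFinite ({x, y} : Set X)).subset ?_
  intro p hp
  have h1 : h ∈ stabilizer G p := by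
    rw [show stabilizer G p = stabilizer G c from hp]
    exact mem_stabilizer_iff.2 hhc
  rcases hxy p (mem_stabilizer_iff.1 h1) with h2 | h2
  · exact Or.inl h2
  · exact Or.inr h2

/-- the stabiliser has finite index in its normaliser -/
theorem stab_index (hG : ConvergenceAction G X) (hst : ∀ p : X, VTFN (stabilizer G p)) {a : X}
    (ha : (stabilizer G a : Set G).Infinite) : (stabilizer G a).relIndex (NN G a) ≠ 0 := by
  have h1 : (stabilizer G a).subgroupOf (NN G a) = stabilizer (NN G a) a := by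
    ext x
    rw [Subgroup.mem_subgroupOf, mem_stabilizer_iff, mem_stabilizer_iff]
    rfl
  rw [Subgroup.relIndex, h1, MulAction.index_stabilizer]
  have h2 : (orbit (NN G a) a).Finite := by
    refine (fin_same hG hst ha).subset ?_
    rintro _ ⟨g, rfl⟩
    exact mem_NN.1 g.2
  exact Set.ncard_ne_zero_of_mem (mem_orbit_self a) h2

/-- an element which normalises the normaliser lies in it -/
theorem mem_of_norm (hG : ConvergenceAction G X) (hst : ∀ p : X, VTFN (stabilizer G p)) {a : X}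
    (ha : (stabilizer G a : Set G).Infinite) {h : G}
    (hh : ∀ x, h * x * h⁻¹ ∈ NN G a ↔ x ∈ NN G a) : h ∈ NN G a := by
  classical
  have hfin := fin_same hG hst ha
  -- the stabiliser of `h a` lies in the normaliser
  have hsub : ∀ x ∈ stabilizer G (h • a), x ∈ NN G a := by
    intro x hx
    have h1 : h⁻¹ * x * h ∈ stabilizer G a := by
      rw [mem_stabilizer_iff, mul_smul, mul_smul, mem_stabilizer_iff.1 hx, inv_smul_smul]
    have h2 := (hh (h⁻¹ * x * h)).2 (stab_le_NN a h1)
    have e : h * (h⁻¹ * x * h) * h⁻¹ = x := by group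
    rwa [e] at h2
  have hinf : (stabilizer G (h • a) : Set G).Infinite := by
    refine (ha.image (f := fun x => h * x * h⁻¹) (fun x _ y _ hxy => ?_)).mono ?_
    · exact mul_left_cancel (mul_right_cancel hxy)
    · rintro _ ⟨x, hx, rfl⟩
      show h * x * h⁻¹ ∈ stabilizer G (h • a)
      rw [mem_stabilizer_iff, mul_smul, mul_smul, inv_smul_smul, mem_stabilizer_iff.1 hx]
  obtain ⟨p, hp⟩ : ∃ p : X, ((stabilizer G (h • a) : Set G) ∩ (fun g : G => g • a) ⁻¹' {p}).Infinite := by
    by_contra hcon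
    apply hinf
    refine (hfin.biUnion (fun p _ => Set.not_infinite.1 (not_exists.1 hcon p))).subset ?_
    intro g hg
    rw [Set.mem_iUnion₂]
    exact ⟨g • a, mem_NN.1 (hsub g hg), hg, rfl⟩
  obtain ⟨g0, hg0, hg1⟩ := hp.nonempty
  have hg1' : g0 • a = p := hg1
  have hinf2 : ((fun g : G => g0⁻¹ * g) '' ((stabilizer G (h • a) : Set G) ∩
      (fun g : G => g • a) ⁻¹' {p})).Infinite := hp.image (fun x _ y _ hxy => mul_left_cancel hxy)
  obtain ⟨k, hk, hki⟩ := (hst a).exists_inf hinf2 (K := stabilizer G a ⊓ stabilizer G (h • a))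
    inf_le_left (by
      rintro _ ⟨g, ⟨hg, hg2⟩, rfl⟩
      have hg' : g • a = p := hg2
      refine ⟨?_, ?_⟩
      · show g0⁻¹ * g ∈ stabilizer G a
        rw [mem_stabilizer_iff, mul_smul, hg', ← hg1', inv_smul_smul]
      · exact (stabilizer G (h • a)).mul_mem ((stabilizer G (h • a)).inv_mem hg0) hg)
  rw [mem_NN]
  exact stab_eq hG hst hki (mem_stabilizer_iff.1 hk.2) (mem_stabilizer_iff.1 hk.1)

/-- **Automorphisms with an inner power.** -/
theorem inner_torus (hG : ConvergenceAction G X) (hst : ∀ p : X, VTFN (stabilizer G p))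
    (σ : MulAut G) {d : ℕ} (hd : 0 < d) {g : G} (hσ : ∀ x, (σ ^ d) x = g * x * g⁻¹) (a : X)
    (ha : (stabilizer G a : Set G).Infinite) (m : ℕ)
    (hE : ∀ x, (σ ^ m) x ∈ NN G a ↔ x ∈ NN G a) :
    Group.IsVirtuallyNilpotent (torus σ (NN G a) m) := by
  obtain ⟨Γ, hle, hidx, hT⟩ := hst a
  have h1 : ∀ x, (σ ^ (m * d)) x = g ^ m * x * (g ^ m)⁻¹ := by
    have h2 : σ ^ d = MulAut.conj g := by
      ext x
      rw [hσ, MulAut.conj_apply]
    intro x
    rw [mul_comm, pow_mul, h2, ← map_pow, MulAut.conj_apply]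
  have h3 : ∀ k : ℕ, ∀ x, (σ ^ (m * k)) x ∈ NN G a ↔ x ∈ NN G a := by
    intro k
    induction k with
    | zero => intro x; simp
    | succ k ih => intro x; rw [mul_add, mul_one, pow_add, MulAut.mul_apply, ih, hE]
  have h4 : g ^ m ∈ NN G a := mem_of_norm hG hst ha (fun x => by rw [← h1]; exact h3 d x)
  refine torus_virt σ hT.1 (hle.trans (stab_le_NN a)) ?_ m d hd hE (g ^ m) h4 h1
  rw [← Subgroup.relIndex_mul_relIndex Γ _ _ hle (stab_le_NN a)]
  exact mul_ne_zero hidx (stab_index hG hst ha)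

end Pool.Agent.P8H72.RH
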